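import Pool.Agent.T2h44.GU.Grn
import Pool.Agent.TH980.IM.Core

set_option autoImplicit false

/-! Almost sure structure of the boundary values of the Green function. -/

open MeasureTheory Filter Topology Set
open scoped ENNReal NNReal
open Pool.Agent.TH980.IM (Sd L2 ee ee_apply inner_ee inner_ee' BT kap kap_pos zk zk_im_pos
  continuous_zk tendsto_zk ae_swap PhiS meas_PhiS)
open Pool.Agent.TH980.IM.PR hiding decay

namespace Pool.Agent.T2h44.GU

variable {d : ℕ}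

theorem exists_lim (ν : Measure ℝ) [IsProbabilityMeasure ν] :
    ∃ h : Sd d → (Sd d → ℝ) × ℝ → ℂ, (∀ w, Measurable (h w)) ∧
      ∀ w, ∀ᵐ q ∂((PP (Sd d) ν).prod volume),
        Tendsto (fun k => GG q.1 (zk k q.2) 0 w) atTop (𝓝 (h w q)) := by
  have hex : ∀ w : Sd d, ∃ f : (Sd d → ℝ) × ℝ → ℂ, Measurable f ∧
      ∀ᵐ q ∂((PP (Sd d) ν).prod volume),
        Tendsto (fun k => GG q.1 (zk k q.2) 0 w) atTop (𝓝 (f q)) := by
    intro w
    apply measurable_limit_of_tendsto_metrizable_ae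
    · intro k
      exact (GG_meas k 0 w).aemeasurable
    · have hm : MeasurableSet {q : (Sd d → ℝ) × ℝ |
          ∃ l : ℂ, Tendsto (fun k => GG q.1 (zk k q.2) 0 w) atTop (𝓝 l)} :=
        measurableSet_exists_tendsto fun k => GG_meas k 0 w
      have h1 : ∀ᵐ V ∂(PP (Sd d) ν), ∀ᵐ E : ℝ, (V, E) ∈ {q : (Sd d → ℝ) × ℝ |
          ∃ l : ℂ, Tendsto (fun k => GG q.1 (zk k q.2) 0 w) atTop (𝓝 l)} :=
        ae_of_all _ fun V => GG_boundary V 0 w
      exact (Measure.ae_prod_mem_iff_ae_ae_mem hm).2 h1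
  choose h h1 h2 using hex
  exact ⟨h, h1, h2⟩

theorem lim_shift {ν : Measure ℝ} [IsProbabilityMeasure ν]
    {h : Sd d → (Sd d → ℝ) × ℝ → ℂ}
    (hh : ∀ w, ∀ᵐ q ∂((PP (Sd d) ν).prod volume),
        Tendsto (fun k => GG q.1 (zk k q.2) 0 w) atTop (𝓝 (h w q))) (x y : Sd d) :
    ∀ᵐ q ∂((PP (Sd d) ν).prod volume),
        Tendsto (fun k => GG q.1 (zk k q.2) x y) atTop (𝓝 (h (y - x) (sh x q.1, q.2))) := by
  have hmp : MeasurePreserving (Prod.map (sh x) (id : ℝ → ℝ)) ((PP (Sd d) ν).prod volume)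
      ((PP (Sd d) ν).prod volume) := (mp_sh ν x).prod (MeasurePreserving.id volume)
  filter_upwards [hmp.quasiMeasurePreserving.ae (hh (y - x))] with q hq
  refine hq.congr fun k => ?_
  exact (GG_shift q.1 (zk_im_pos k q.2).ne' x y).symm

/-- far off-diagonal boundary values tend to zero in probability -/
theorem lim_decay {ν : Measure ℝ} [IsProbabilityMeasure ν] {a b ε0 : ℝ} (hε0 : 0 < ε0)
    (hab : 4 * ε0 ≤ |a - b|) (ha : ν (Metric.ball a ε0) ≠ 0) (hb : ν (Metric.ball b ε0) ≠ 0)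
    {h : Sd d → (Sd d → ℝ) × ℝ → ℂ} (hm : ∀ w, Measurable (h w))
    (hh : ∀ w, ∀ᵐ q ∂((PP (Sd d) ν).prod volume),
        Tendsto (fun k => GG q.1 (zk k q.2) 0 w) atTop (𝓝 (h w q))) :
    ∀ᵐ E : ℝ, ∀ δ : ℝ, 0 < δ →
      Tendsto (fun w => PP (Sd d) ν {V | δ ≤ ‖h w (V, E)‖}) cofinite (𝓝 0) := by
  have h1 : ∀ᵐ q ∂((PP (Sd d) ν).prod volume), ∀ x y : Sd d,
      Tendsto (fun k => GG q.1 (zk k q.2) x y) atTop (𝓝 (h (y - x) (sh x q.1, q.2))) := by
    rw [ae_all_iff]; intro x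
    rw [ae_all_iff]; intro y
    exact lim_shift hh x y
  filter_upwards [ae_swap h1] with E hE δ hδ
  have hmE : ∀ w, Measurable fun V : Sd d → ℝ => h w (V, E) := fun w =>
    (hm w).comp (measurable_id.prodMk measurable_const)
  refine decay ν hε0 hab ha hb (f := fun V => h 0 (V, E)) (g := fun V => h 0 (V, E))
    (hmE 0) (hmE 0) (h := fun w V => h w (V, E)) hmE (fun x => ?_) hδ
  have e1 : ∀ᵐ p ∂((PP (Sd d) ν).prod ν), ∀ x y : Sd d,
      Tendsto (fun k => GG p.1 (zk k E) x y) atTop (𝓝 (h (y - x) (sh x p.1, E))) :=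
    (measurePreserving_fst (μ := PP (Sd d) ν) (ν := ν)).quasiMeasurePreserving.ae hE
  have e2 : ∀ᵐ p ∂((PP (Sd d) ν).prod ν), ∀ x' y : Sd d,
      Tendsto (fun k => GG (up x p) (zk k E) x' y) atTop
        (𝓝 (h (y - x') (sh x' (up x p), E))) :=
    (mp_up ν x).quasiMeasurePreserving.ae hE
  filter_upwards [e1, e2] with p h2 h3
  have hsh : ∀ V : Sd d → ℝ, sh (0 : Sd d) V = V := fun V => by funext y; simp [sh]
  have t1 := h2 0 0
  have t2 := h2 x x
  have t3 := h2 0 x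
  have t4 := h3 0 0
  rw [hsh, sub_zero] at t1
  rw [sub_self] at t2
  rw [hsh, sub_zero] at t3
  rw [hsh, sub_zero] at t4
  have hl := (t1.sub t4).mul ((t2.const_mul ((p.2 - p.1 x : ℝ) : ℂ)).const_add 1)
  have hr := (t3.pow 2).const_mul ((p.2 - p.1 x : ℝ) : ℂ)
  refine tendsto_nhds_unique hl (hr.congr fun k => ?_)
  have h6 := rank_one p.1 x p.2 (zk_im_pos k E).ne'
  exact h6.symm

theorem core (hd : 1 ≤ d) {ν : Measure ℝ} [IsProbabilityMeasure ν] {a b ε0 : ℝ} (hε0 : 0 < ε0)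
    (hab : 4 * ε0 ≤ |a - b|) (ha : ν (Metric.ball a ε0) ≠ 0) (hb : ν (Metric.ball b ε0) ≠ 0) :
    ∃ (h : Sd d → (Sd d → ℝ) × ℝ → ℂ) (Sg : Set ℝ), MeasurableSet Sg ∧ (∀ w, Measurable (h w)) ∧
      ∀ᵐ V ∂(PP (Sd d) ν),
        (∀ᵐ E : ℝ, ∀ x y : Sd d, Tendsto (fun k => GG V (zk k E) x y) atTop
          (𝓝 (h (y - x) (sh x V, E)))) ∧
        (∀ᵐ E : ℝ, E ∈ Sg → ∀ n : ℕ, ∃ (j : ℕ) (x : Fin (n + 1) → Sd d), (V, E) ∈ PhiS h n j x) ∧
        ∀ᵐ E : ℝ, E ∉ Sg → ∀ x : Sd d, (h 0 (sh x V, E)).im ≤ 0 := by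
  haveI : Nonempty (Fin d) := ⟨⟨0, hd⟩⟩
  haveI : Infinite (Sd d) := Pi.infinite_of_right
  obtain ⟨h, hm, hh⟩ := exists_lim (d := d) ν
  have hms : MeasurableSet {q : (Sd d → ℝ) × ℝ | 0 < (h 0 q).im} :=
    measurableSet_lt measurable_const (Complex.measurable_im.comp (hm 0))
  set Sg : Set ℝ := {E | PP (Sd d) ν {V | 0 < (h 0 (V, E)).im} ≠ 0} with hSg
  have hSgm : MeasurableSet Sg := by
    have h1 : Measurable fun E : ℝ => PP (Sd d) ν ((fun V => (V, E)) ⁻¹'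
        {q : (Sd d → ℝ) × ℝ | 0 < (h 0 q).im}) := measurable_measure_prodMk_right hms
    exact h1 (measurableSet_singleton 0).compl
  have hall : ∀ᵐ q ∂((PP (Sd d) ν).prod volume), ∀ x y : Sd d,
      Tendsto (fun k => GG q.1 (zk k q.2) x y) atTop (𝓝 (h (y - x) (sh x q.1, q.2))) := by
    rw [ae_all_iff]; intro x
    rw [ae_all_iff]; intro y
    exact lim_shift hh x y
  -- first statement
  have r1 : ∀ᵐ V ∂(PP (Sd d) ν), ∀ᵐ E : ℝ, ∀ x y : Sd d,
      Tendsto (fun k => GG V (zk k E) x y) atTop (𝓝 (h (y - x) (sh x V, E))) :=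
    Measure.ae_ae_of_ae_prod hall
  -- second statement
  have r2 : ∀ᵐ V ∂(PP (Sd d) ν), ∀ᵐ E : ℝ,
      E ∈ Sg → ∀ n : ℕ, ∃ (j : ℕ) (x : Fin (n + 1) → Sd d), (V, E) ∈ PhiS h n j x := by
    have hmeas : MeasurableSet {q : (Sd d → ℝ) × ℝ | q.2 ∈ Sg → ∀ n : ℕ,
        ∃ (j : ℕ) (x : Fin (n + 1) → Sd d), q ∈ PhiS h n j x} := by
      have e : {q : (Sd d → ℝ) × ℝ | q.2 ∈ Sg → ∀ n : ℕ,
          ∃ (j : ℕ) (x : Fin (n + 1) → Sd d), q ∈ PhiS h n j x} =
          (Prod.snd ⁻¹' Sg)ᶜ ∪ ⋂ n : ℕ, ⋃ j : ℕ, ⋃ x : Fin (n + 1) → Sd d, PhiS h n j x := by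
        ext q
        simp only [Set.mem_ofPred_eq, mem_union, mem_compl_iff, mem_preimage, mem_iInter,
          mem_iUnion]
        tauto
      rw [e]
      apply MeasurableSet.union (measurable_snd hSgm).compl
      exact MeasurableSet.iInter fun n => MeasurableSet.iUnion fun j =>
        MeasurableSet.iUnion fun x => meas_PhiS hm n j x
    have h1 : ∀ᵐ E : ℝ, ∀ᵐ V ∂(PP (Sd d) ν), (V, E) ∈ {q : (Sd d → ℝ) × ℝ | q.2 ∈ Sg → ∀ n : ℕ,
        ∃ (j : ℕ) (x : Fin (n + 1) → Sd d), q ∈ PhiS h n j x} := by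
      filter_upwards [lim_decay hε0 hab ha hb hm hh] with E hE
      by_cases hEg : E ∈ Sg
      · have hmE : ∀ w, Measurable fun V : Sd d → ℝ => (h w (V, E)).im := fun w =>
          Complex.measurable_im.comp ((hm w).comp (measurable_id.prodMk measurable_const))
        -- a quantitative level
        obtain ⟨j, hj⟩ : ∃ j : ℕ, PP (Sd d) ν {V | 1 / ((j : ℝ) + 1) ≤ (h 0 (V, E)).im} ≠ 0 := by
          by_contra hcon
          push Not at hcon
          apply hEg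
          have hsub : {V : Sd d → ℝ | 0 < (h 0 (V, E)).im} ⊆
              ⋃ j : ℕ, {V | 1 / ((j : ℝ) + 1) ≤ (h 0 (V, E)).im} := by
            intro V hV
            obtain ⟨j, hj⟩ := exists_nat_one_div_lt (show (0 : ℝ) < (h 0 (V, E)).im from hV)
            exact mem_iUnion.2 ⟨j, hj.le⟩
          exact measure_mono_null hsub (measure_iUnion_null hcon)
        have hdec : ∀ δ' : ℝ, 0 < δ' →
            Tendsto (fun w => PP (Sd d) ν {V | δ' ≤ |(h w (V, E)).im|}) cofinite (𝓝 0) := by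
          intro δ' hδ'
          refine tendsto_of_tendsto_of_tendsto_of_le_of_le tendsto_const_nhds (hE δ' hδ')
            (fun _ => zero_le) fun w => ?_
          apply measure_mono
          intro V hV
          exact le_trans (show δ' ≤ |(h w (V, E)).im| from hV) (Complex.abs_im_le_norm _)
        have h2 : ∀ᵐ V ∂(PP (Sd d) ν), ∀ n : ℕ, ∃ x : Fin (n + 1) → Sd d,
            (∀ i, 1 / ((j : ℝ) + 1) ≤ (h 0 (sh (x i) V, E)).im) ∧
            ∀ i k, i ≠ k → |(h (x k - x i) (sh (x i) V, E)).im| <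
              1 / ((j : ℝ) + 1) / (2 * ((n : ℝ) + 1)) := by
          rw [ae_all_iff]
          intro n
          exact many ν (m := fun V => (h 0 (V, E)).im) (hmE 0) (o := fun w V => (h w (V, E)).im)
            hmE hdec hj (n + 1) (by positivity)
        filter_upwards [h2] with V hV _ n
        obtain ⟨x, hx⟩ := hV n
        exact ⟨j, x, hx⟩
      · exact ae_of_all _ fun V hE' => absurd hE' hEg
    exact (Measure.ae_ae_comm hmeas).2 h1
  -- third statement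
  have r3 : ∀ᵐ V ∂(PP (Sd d) ν), ∀ᵐ E : ℝ, E ∉ Sg → ∀ x : Sd d, (h 0 (sh x V, E)).im ≤ 0 := by
    have hmx : ∀ x : Sd d, Measurable fun q : (Sd d → ℝ) × ℝ => (h 0 (sh x q.1, q.2)).im :=
      fun x => Complex.measurable_im.comp
        ((hm 0).comp (((meas_sh x).comp measurable_fst).prodMk measurable_snd))
    have hmeas : MeasurableSet {q : (Sd d → ℝ) × ℝ | q.2 ∉ Sg →
        ∀ x : Sd d, (h 0 (sh x q.1, q.2)).im ≤ 0} := by
      have e : {q : (Sd d → ℝ) × ℝ | q.2 ∉ Sg → ∀ x : Sd d, (h 0 (sh x q.1, q.2)).im ≤ 0} =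
          (Prod.snd ⁻¹' Sg) ∪ ⋂ x : Sd d, {q | (h 0 (sh x q.1, q.2)).im ≤ 0} := by
        ext q
        simp only [Set.mem_ofPred_eq, mem_union, mem_preimage, mem_iInter]
        tauto
      rw [e]
      apply MeasurableSet.union (measurable_snd hSgm)
      exact MeasurableSet.iInter fun x => measurableSet_le (hmx x) measurable_const
    have h1 : ∀ᵐ E : ℝ, ∀ᵐ V ∂(PP (Sd d) ν), (V, E) ∈ {q : (Sd d → ℝ) × ℝ | q.2 ∉ Sg →
        ∀ x : Sd d, (h 0 (sh x q.1, q.2)).im ≤ 0} := by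
      apply ae_of_all
      intro E
      by_cases hEg : E ∈ Sg
      · exact ae_of_all _ fun V hE' => absurd hEg hE'
      · have h2 : PP (Sd d) ν {V | 0 < (h 0 (V, E)).im} = 0 := not_not.1 hEg
        have h3 : ∀ᵐ V ∂(PP (Sd d) ν), ∀ x : Sd d, (h 0 (sh x V, E)).im ≤ 0 := by
          rw [ae_all_iff]
          intro x
          have h4 : ∀ᵐ V ∂(PP (Sd d) ν), (h 0 (V, E)).im ≤ 0 := by
            rw [ae_iff]
            simpa only [not_le] using h2
          exact (mp_sh ν x).quasiMeasurePreserving.ae h4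
        filter_upwards [h3] with V hV _
        exact hV
    exact (Measure.ae_ae_comm hmeas).2 h1
  refine ⟨h, Sg, hSgm, hm, ?_⟩
  filter_upwards [r1, r2, r3] with V h1 h2 h3
  exact ⟨h1, h2, h3⟩

end Pool.Agent.T2h44.GU
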