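import Pool.Agent.TH980.IM.Prob2

set_option autoImplicit false

/-! Decay of the off-diagonal boundary values, for unbounded laws. -/

open MeasureTheory Filter Topology Set ProbabilityTheory
open scoped ENNReal NNReal
open Pool.Agent.TH980.IM.PR

namespace Pool.Agent.T2h44.GU

variable {ι : Type} [AddCommGroup ι] [Countable ι] [DecidableEq ι]
variable (ν : Measure ℝ) [IsProbabilityMeasure ν]

omit [Countable ι] in
theorem decay {a b ε0 : ℝ} (hε0 : 0 < ε0)
    (hab : 4 * ε0 ≤ |a - b|) (ha : ν (Metric.ball a ε0) ≠ 0) (hb : ν (Metric.ball b ε0) ≠ 0)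
    {f g : (ι → ℝ) → ℂ} (hf : Measurable f) (hg : Measurable g) {h : ι → (ι → ℝ) → ℂ}
    (hh : ∀ x, Measurable (h x))
    (rel : ∀ x, ∀ᵐ p ∂((PP ι ν).prod ν), (f p.1 - f (up x p)) *
      (1 + ((p.2 - p.1 x : ℝ) : ℂ) * g (sh x p.1)) = ((p.2 - p.1 x : ℝ) : ℂ) * (h x p.1) ^ 2)
    {δ : ℝ} (hδ : 0 < δ) :
    Tendsto (fun x => PP ι ν {V | δ ≤ ‖h x V‖}) cofinite (𝓝 0) := by
  set c0 : ℝ≥0∞ := min (ν (Metric.ball a ε0)) (ν (Metric.ball b ε0)) with hc0
  have hc0pos : c0 ≠ 0 := by
    rw [hc0]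
    simp only [ne_eq, min_eq_iff, not_or, not_and]
    exact ⟨fun h => absurd h ha, fun h => absurd h hb⟩
  have hc0top : c0 ≠ ∞ := ne_top_of_le_ne_top (measure_ne_top _ _) (min_le_left _ _)
  rw [ENNReal.tendsto_nhds_zero]
  intro η hη
  rcases eq_or_ne η ∞ with rfl | hηtop
  · exact Eventually.of_forall fun x => le_top
  have hη' : 0 < c0 * η := ENNReal.mul_pos hc0pos hη.ne'
  obtain ⟨C, hC0, hC⟩ := tight ν hg (ENNReal.half_pos hη'.ne')
  set δ' : ℝ := δ ^ 2 / (1 / ε0 + C) with hδ'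
  have hδ'0 : 0 < δ' := by positivity
  filter_upwards [(ENNReal.tendsto_nhds_zero.1 (resample_fun ν hf hδ'0)) (c0 * η / 2)
    (ENNReal.half_pos hη'.ne')] with x hx
  set W : Set ((ι → ℝ) × ℝ) := {p | δ ≤ ‖h x p.1‖ ∧ ε0 ≤ |p.2 - p.1 x|} with hW
  have hWm : MeasurableSet W := by
    exact (measurableSet_le measurable_const ((hh x).comp measurable_fst).norm).inter
      (measurableSet_le measurable_const
        (measurable_snd.sub ((measurable_pi_apply x).comp measurable_fst)).abs)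
  have hAm : MeasurableSet {V | δ ≤ ‖h x V‖} := measurableSet_le measurable_const (hh x).norm
  -- lower bound
  have hlow : c0 * PP ι ν {V | δ ≤ ‖h x V‖} ≤ ((PP ι ν).prod ν) W := by
    rw [Measure.prod_apply hWm, ← setLIntegral_const, ← lintegral_indicator hAm]
    apply lintegral_mono
    intro V
    by_cases hV : V ∈ {V | δ ≤ ‖h x V‖}
    · rw [indicator_of_mem hV]
      have hV' : δ ≤ ‖h x V‖ := hV
      rcases le_or_gt (2 * ε0) |V x - a| with h1 | h1
      · refine (min_le_left _ _).trans (measure_mono fun v hv => ?_)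
        rw [Metric.mem_ball, Real.dist_eq] at hv
        refine ⟨hV', ?_⟩
        simp only
        have := abs_sub_le (V x) v a
        rw [abs_sub_comm (V x) v] at this
        linarith
      · refine (min_le_right _ _).trans (measure_mono fun v hv => ?_)
        rw [Metric.mem_ball, Real.dist_eq] at hv
        refine ⟨hV', ?_⟩
        simp only
        have h2 := abs_sub_le a (V x) b
        have h3 := abs_sub_le (V x) v b
        rw [abs_sub_comm (V x) v] at h3
        rw [abs_sub_comm a (V x)] at h2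
        linarith
    · rw [indicator_of_notMem hV]
      exact zero_le
  -- upper bound
  have hup : ((PP ι ν).prod ν) W ≤ c0 * η := by
    have hsub : W ≤ᵐ[(PP ι ν).prod ν] ({p | δ' ≤ ‖f p.1 - f (up x p)‖} ∪
        Prod.fst ⁻¹' (sh x ⁻¹' {V | C < ‖g V‖}) : Set ((ι → ℝ) × ℝ)) := by
      filter_upwards [rel x] with p h1
      intro hp
      obtain ⟨h4, h5⟩ : δ ≤ ‖h x p.1‖ ∧ ε0 ≤ |p.2 - p.1 x| := hp
      by_cases h6 : C < ‖g (sh x p.1)‖
      · exact Or.inr h6
      · left
        rw [not_lt] at h6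
        show δ' ≤ ‖f p.1 - f (up x p)‖
        have h7 := congrArg norm h1
        rw [norm_mul, norm_mul, norm_pow, Complex.norm_real, Real.norm_eq_abs] at h7
        set t : ℝ := |p.2 - p.1 x| with ht
        have ht0 : 0 < t := lt_of_lt_of_le hε0 h5
        have h9 : ‖1 + ((p.2 - p.1 x : ℝ) : ℂ) * g (sh x p.1)‖ ≤ t * (1 / ε0 + C) := by
          refine (norm_add_le _ _).trans ?_
          rw [norm_one, norm_mul, Complex.norm_real, Real.norm_eq_abs, ← ht, mul_add]
          have h10 : 1 ≤ t * (1 / ε0) := by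
            rw [mul_one_div, le_div_iff₀ hε0]
            linarith
          have h11 : t * ‖g (sh x p.1)‖ ≤ t * C := mul_le_mul_of_nonneg_left h6 ht0.le
          linarith
        rw [hδ', div_le_iff₀ (by positivity)]
        have h12 : t * δ ^ 2 ≤ t * (‖f p.1 - f (up x p)‖ * (1 / ε0 + C)) := by
          calc t * δ ^ 2 ≤ t * ‖h x p.1‖ ^ 2 := by gcongr
            _ = ‖f p.1 - f (up x p)‖ * ‖1 + ((p.2 - p.1 x : ℝ) : ℂ) * g (sh x p.1)‖ := h7.symm
            _ ≤ ‖f p.1 - f (up x p)‖ * (t * (1 / ε0 + C)) :=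
              mul_le_mul_of_nonneg_left h9 (norm_nonneg _)
            _ = _ := by ring
        exact le_of_mul_le_mul_left h12 ht0
    have hgm : MeasurableSet {V : ι → ℝ | C < ‖g V‖} := measurableSet_lt measurable_const hg.norm
    calc ((PP ι ν).prod ν) W ≤ ((PP ι ν).prod ν) ({p | δ' ≤ ‖f p.1 - f (up x p)‖} ∪
        Prod.fst ⁻¹' (sh x ⁻¹' {V | C < ‖g V‖})) := measure_mono_ae hsub
      _ ≤ ((PP ι ν).prod ν) {p | δ' ≤ ‖f p.1 - f (up x p)‖} +
          ((PP ι ν).prod ν) (Prod.fst ⁻¹' (sh x ⁻¹' {V | C < ‖g V‖})) := measure_union_le _ _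
      _ ≤ c0 * η / 2 + c0 * η / 2 := by
          refine add_le_add hx ?_
          rw [measurePreserving_fst.measure_preimage (meas_sh x hgm).nullMeasurableSet,
            (mp_sh ν x).measure_preimage hgm.nullMeasurableSet]
          exact hC
      _ = c0 * η := ENNReal.add_halves _
  exact (ENNReal.mul_le_mul_iff_right hc0pos hc0top).1 (hlow.trans hup)

end Pool.Agent.T2h44.GU
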