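import Pool.Agent.T2h44.GU.Spm
import Pool.Agent.T2h44.GU.Prob

set_option autoImplicit false

/-! The Green function of `Δ + V` for arbitrary real potentials. -/

open MeasureTheory Filter Topology Set
open scoped ENNReal NNReal InnerProductSpace
open Pool.Agent.TH980.IM (Sd L2 ee ee_apply inner_ee inner_ee' BT kap kap_pos zk zk_im_pos
  continuous_zk tendsto_zk boundary ae_im_tendsto meas_gen zs zs_re_sub tendsto_sk)
open Pool.Agent.TH980.IM.PR

namespace Pool.Agent.T2h44.GU

variable {d : ℕ}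

/-- the spectral measure -/
noncomputable def spm (V : Sd d → ℝ) (u : L2 d) : Measure ℝ := (exists_spec V u).choose

instance (V : Sd d → ℝ) (u : L2 d) : IsFiniteMeasure (spm V u) := (exists_spec V u).choose_spec.1

theorem spm_mass (V : Sd d → ℝ) (u : L2 d) : (spm V u).real univ ≤ ‖u‖ ^ 2 :=
  (exists_spec V u).choose_spec.2.1

theorem BT_spm (V : Sd d → ℝ) (u : L2 d) {z : ℂ} (hz : z.im ≠ 0) :
    BT (spm V u) z = inner ℂ u (RV V z u) := (exists_spec V u).choose_spec.2.2 z hz

/-- the density of the spectral measure -/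
noncomputable def dn (V : Sd d → ℝ) (u : L2 d) (E : ℝ) : ℝ := ((spm V u).rnDeriv volume E).toReal

theorem dn_nonneg (V : Sd d → ℝ) (u : L2 d) (E : ℝ) : 0 ≤ dn V u E := ENNReal.toReal_nonneg

/-- boundary values, for any measure with the right Borel transform -/
theorem boundary_of {V : Sd d → ℝ} {u : L2 d} {μ : Measure ℝ} [IsFiniteMeasure μ]
    (hμ : ∀ z : ℂ, z.im ≠ 0 → BT μ z = inner ℂ u (RV V z u)) :
    ∀ᵐ E : ℝ, ∃ l : ℂ, Tendsto (fun k => inner ℂ u (RV V (zk k E) u)) atTop (𝓝 l) ∧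
      l.im = kap * (μ.rnDeriv volume E).toReal := by
  have h := boundary μ ?_
  · filter_upwards [h] with E ⟨l, hl, hl2⟩
    refine ⟨l, hl.congr fun k => ?_, hl2⟩
    exact hμ _ (zk_im_pos k E).ne'
  · intro z hz
    refine (inner_diff V hz.ne' u u).congr_of_eventuallyEq ?_
    have : ∀ᶠ w : ℂ in 𝓝 z, 0 < w.im := (Complex.continuous_im.tendsto z).eventually (lt_mem_nhds hz)
    filter_upwards [this] with w hw
    exact hμ w hw.ne'

theorem boundary_spm (V : Sd d → ℝ) (u : L2 d) :
    ∀ᵐ E : ℝ, ∃ l : ℂ, Tendsto (fun k => inner ℂ u (RV V (zk k E) u)) atTop (𝓝 l) ∧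
      l.im = kap * dn V u E := boundary_of fun _ hz => BT_spm V u hz

/-- the resolvent seminorm -/
noncomputable def qn (V : Sd d → ℝ) (z : ℂ) (u : L2 d) : ℝ := Real.sqrt z.im * ‖RV V z u‖

theorem qn_nonneg (V : Sd d → ℝ) (z : ℂ) (u : L2 d) : 0 ≤ qn V z u := by unfold qn; positivity

theorem qn_sq (V : Sd d → ℝ) {z : ℂ} (hz : 0 < z.im) (u : L2 d) :
    qn V z u ^ 2 = (inner ℂ u (RV V z u)).im := by
  rw [RV_im V hz.ne', qn, mul_pow, Real.sq_sqrt hz.le]

theorem qn_add (V : Sd d → ℝ) (z : ℂ) (u v : L2 d) : qn V z (u + v) ≤ qn V z u + qn V z v := by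
  unfold qn
  rw [map_add, ← mul_add]
  exact mul_le_mul_of_nonneg_left (norm_add_le _ _) (Real.sqrt_nonneg _)

theorem qn_smul (V : Sd d → ℝ) (z c : ℂ) (u : L2 d) : qn V z (c • u) = ‖c‖ * qn V z u := by
  unfold qn
  rw [map_smul, norm_smul]
  ring

theorem qn_zero (V : Sd d → ℝ) (z : ℂ) : qn V z (0 : L2 d) = 0 := by
  unfold qn
  rw [map_zero, norm_zero, mul_zero]

theorem qn_sum (V : Sd d → ℝ) {ι : Type} (s : Finset ι) (z : ℂ) (c : ι → ℂ) (u : ι → L2 d) :
    qn V z (∑ i ∈ s, c i • u i) ≤ ∑ i ∈ s, ‖c i‖ * qn V z (u i) := by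
  classical
  induction s using Finset.induction_on with
  | empty => simp [qn_zero]
  | insert a s ha ih =>
    rw [Finset.sum_insert ha, Finset.sum_insert ha]
    refine (qn_add _ _ _ _).trans ?_
    rw [qn_smul]
    linarith

/-- convergence of the seminorm, for any measure with the right Borel transform -/
theorem qn_tendsto_of {V : Sd d → ℝ} {u : L2 d} {μ : Measure ℝ} [IsFiniteMeasure μ]
    (hμ : ∀ z : ℂ, z.im ≠ 0 → BT μ z = inner ℂ u (RV V z u)) :
    ∀ᵐ E : ℝ, Tendsto (fun k => qn V (zk k E) u) atTop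
      (𝓝 (Real.sqrt (kap * (μ.rnDeriv volume E).toReal))) := by
  filter_upwards [boundary_of hμ] with E ⟨l, hl, hl2⟩
  have h1 : Tendsto (fun k => qn V (zk k E) u ^ 2) atTop
      (𝓝 (kap * (μ.rnDeriv volume E).toReal)) := by
    rw [← hl2]
    refine ((Complex.continuous_im.tendsto l).comp hl).congr fun k => ?_
    exact (qn_sq V (zk_im_pos k E) u).symm
  refine ((Real.continuous_sqrt.tendsto _).comp h1).congr fun k => ?_
  exact Real.sqrt_sq (qn_nonneg _ _ _)

theorem qn_tendsto (V : Sd d → ℝ) (u : L2 d) :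
    ∀ᵐ E : ℝ, Tendsto (fun k => qn V (zk k E) u) atTop (𝓝 (Real.sqrt (kap * dn V u E))) :=
  qn_tendsto_of fun _ hz => BT_spm V u hz

/-- the Green function -/
noncomputable def GG (V : Sd d → ℝ) (z : ℂ) (x y : Sd d) : ℂ := (RV V z (ee y)) x

theorem GG_inner (V : Sd d → ℝ) (z : ℂ) (x y : Sd d) :
    GG V z x y = inner ℂ (ee x) (RV V z (ee y)) := by
  rw [inner_ee]; rfl

/-- symmetry of the Green function -/
theorem GG_symm (V : Sd d → ℝ) {z : ℂ} (hz : z.im ≠ 0) (x y : Sd d) :
    GG V z x y = GG V z y x := by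
  have h1 := RV_star V hz (ee y)
  rw [star_ee] at h1
  have h2 := RV_adj V hz (ee y) (ee x)
  rw [← h1, inner_ee', lp.star_apply] at h2
  rw [GG_inner V z y x, ← h2]
  unfold GG
  simp

/-- resampling one site: the resolvent identity -/
theorem RV_up (V : Sd d → ℝ) (x : Sd d) (v : ℝ) {z : ℂ} (hz : z.im ≠ 0) (f : L2 d) :
    RV (up x (V, v)) z f = RV V z f -
      (((v - V x : ℝ) : ℂ) * (RV (up x (V, v)) z f) x) • RV V z (ee x) := by
  set κ : ℂ := ((v - V x : ℝ) : ℂ) with hκ
  set V' := up x (V, v) with hV'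
  set w := RV V' z f with hw
  have h1 := RV_sol V' hz f
  rw [← hw] at h1
  have h2 : Sol V z f (w + (κ * w x) • RV V z (ee x)) := by
    intro j
    have h3 := h1 j
    have h4 := RV_sol V hz (ee x) j
    rw [map_add, map_smul]
    change (Ad d w) j + (κ * w x) * (Ad d (RV V z (ee x))) j +
      (V j : ℂ) * (w j + (κ * w x) * (RV V z (ee x)) j) -
      z * (w j + (κ * w x) * (RV V z (ee x)) j) = f j
    have h5 : (κ * w x) * ((Ad d (RV V z (ee x))) j + (V j : ℂ) * (RV V z (ee x)) j -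
      z * (RV V z (ee x)) j) = (κ * w x) * (ee x : L2 d) j := by rw [h4]
    rw [← h3]
    have h6 : (V' j : ℂ) * w j = (V j : ℂ) * w j + (κ * w x) * (ee x : L2 d) j := by
      rw [ee_apply]
      by_cases hj : j = x
      · subst hj
        rw [if_pos rfl, hV']
        simp only [up, Function.update_self]
        rw [hκ]
        push_cast
        ring
      · rw [if_neg hj, hV']
        simp only [up, Function.update_of_ne hj]
        ring
    rw [h6, ← h5]
    ring
  rw [← RV_unique hz h2]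
  abel

/-- resampling one site: the rank one formula -/
theorem rank_one (V : Sd d → ℝ) (x : Sd d) (v : ℝ) {z : ℂ} (hz : z.im ≠ 0) :
    (GG V z 0 0 - GG (up x (V, v)) z 0 0) *
      (1 + ((v - V x : ℝ) : ℂ) * GG V z x x) =
      ((v - V x : ℝ) : ℂ) * GG V z 0 x ^ 2 := by
  set κ : ℂ := ((v - V x : ℝ) : ℂ) with hκ
  set V' := up x (V, v) with hV'
  have key : ∀ y j : Sd d, GG V' z j y = GG V z j y - κ * GG V' z x y * GG V z j x := by
    intro y j
    have h4 := congrArg (fun f : L2 d => f j) (RV_up V x v hz (ee y))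
    change (RV V' z (ee y)) j = (RV V z (ee y)) j - (κ * (RV V' z (ee y)) x) *
      (RV V z (ee x)) j at h4
    exact h4
  have k1 := key 0 0
  have k2 := key 0 x
  have hs := GG_symm V hz x 0
  rw [k1]
  have e : GG V z 0 0 - (GG V z 0 0 - κ * GG V' z x 0 * GG V z 0 x) =
      κ * GG V z 0 x * GG V' z x 0 := by ring
  rw [e]
  have e2 : GG V' z x 0 * (1 + κ * GG V z x x) = GG V z x 0 := by
    linear_combination k2
  calc κ * GG V z 0 x * GG V' z x 0 * (1 + κ * GG V z x x) =
      κ * GG V z 0 x * (GG V' z x 0 * (1 + κ * GG V z x x)) := by ring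
    _ = _ := by rw [e2, hs]; ring

/-- translation covariance -/
theorem GG_shift (V : Sd d → ℝ) {z : ℂ} (hz : z.im ≠ 0) (x y : Sd d) :
    GG V z x y = GG (sh x V) z 0 (y - x) := by
  obtain ⟨S, hS⟩ := Pool.Agent.H4R2.AE.Exist.exists_op (ι := Sd d) (fun j => j + x)
    (add_left_injective x) (fun _ => 1) 1 zero_le_one (fun x => by simp)
  simp only [one_mul] at hS
  have h1 : S (RV V z (ee y)) = RV (sh x V) z (ee (y - x)) := by
    apply RV_unique hz
    intro j
    set w := RV V z (ee y) with hw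
    have h2 := RV_sol V hz (ee y) (j + x)
    rw [← hw, Ad_apply] at h2
    rw [Ad_apply]
    simp only [hS, sh]
    rw [ee_apply] at h2 ⊢
    have h5 : j + x = y ↔ j = y - x := eq_sub_iff_add_eq.symm
    simp only [h5] at h2
    rw [← h2]
    congr 2
    refine Finset.sum_congr rfl fun i _ => ?_
    rw [add_right_comm, sub_add_eq_add_sub]
  have h6 := hS (RV V z (ee y)) 0
  rw [h1, zero_add] at h6
  exact h6.symm

theorem inner_cont_E (V : Sd d → ℝ) (k : ℕ) (a b : L2 d) :
    Continuous (fun E : ℝ => inner ℂ a (RV V (zk k E) b)) := by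
  rw [continuous_iff_continuousAt]
  intro E
  have h3 : ContinuousAt (fun z => inner ℂ a (RV V z b)) (zk k E) :=
    (inner_diff V (zk_im_pos k E).ne' a b).continuousAt
  exact ContinuousAt.comp (f := fun E : ℝ => zk k E) h3 (continuous_zk k).continuousAt

theorem inner_meas (k : ℕ) (a b : L2 d) :
    Measurable (fun q : (Sd d → ℝ) × ℝ => inner ℂ a (RV q.1 (zk k q.2) b)) :=
  meas_gen (F := fun V E => inner ℂ a (RV V (zk k E) b))
    (fun V => inner_cont_E V k a b) (fun E => inner_meas_V (zk_im_pos k E).ne' a b)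

theorem GG_meas (k : ℕ) (x y : Sd d) :
    Measurable (fun q : (Sd d → ℝ) × ℝ => GG q.1 (zk k q.2) x y) := by
  simp only [GG_inner]
  exact inner_meas k _ _

/-- polarization -/
theorem GG_polar (V : Sd d → ℝ) {z : ℂ} (hz : z.im ≠ 0) (x y : Sd d) :
    GG V z x y = (1 / 4 : ℂ) * (inner ℂ (ee x + ee y) (RV V z (ee x + ee y)) -
      inner ℂ (ee x - ee y) (RV V z (ee x - ee y))) := by
  have h := GG_symm V hz x y
  rw [GG_inner, GG_inner] at h
  rw [GG_inner, map_add, map_sub, inner_add_left, inner_sub_left, inner_add_right, inner_add_right,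
    inner_sub_right, inner_sub_right, ← h]
  ring

/-- boundary values of the Green function -/
theorem GG_boundary (V : Sd d → ℝ) (x y : Sd d) :
    ∀ᵐ E : ℝ, ∃ l : ℂ, Tendsto (fun k => GG V (zk k E) x y) atTop (𝓝 l) := by
  filter_upwards [boundary_spm V (ee x + ee y), boundary_spm V (ee x - ee y)]
    with E ⟨l1, h1, _⟩ ⟨l2, h2, _⟩
  refine ⟨(1 / 4 : ℂ) * (l1 - l2), ((h1.sub h2).const_mul (1 / 4 : ℂ)).congr fun k => ?_⟩
  exact (GG_polar V (zk_im_pos k E).ne' x y).symm

/-- the quadratic form of the resolvent seminorm -/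
theorem qn_form (V : Sd d → ℝ) {z : ℂ} (hz : 0 < z.im) {n : ℕ} (x : Fin n → Sd d)
    (s : Fin n → ℂ) :
    qn V z (∑ i, s i • ee (x i)) ^ 2 =
      ∑ i, ∑ j, ((starRingEnd ℂ) (s i) * s j).re * (GG V z (x i) (x j)).im := by
  rw [qn_sq V hz]
  have h1 : inner ℂ (∑ i, s i • ee (x i)) (RV V z (∑ i, s i • ee (x i))) =
      ∑ i, ∑ j, (starRingEnd ℂ) (s i) * s j * GG V z (x i) (x j) := by
    rw [map_sum, sum_inner]
    refine Finset.sum_congr rfl fun i _ => ?_
    rw [inner_sum]
    refine Finset.sum_congr rfl fun j _ => ?_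
    rw [map_smul, inner_smul_left, inner_smul_right, GG_inner]
    ring
  rw [h1, Complex.im_sum]
  simp only [Complex.im_sum]
  have h2 : ∑ i, ∑ j, ((starRingEnd ℂ) (s i) * s j).im * (GG V z (x i) (x j)).re = 0 := by
    have h3 : ∑ i, ∑ j, ((starRingEnd ℂ) (s i) * s j).im * (GG V z (x i) (x j)).re =
        - ∑ i, ∑ j, ((starRingEnd ℂ) (s i) * s j).im * (GG V z (x i) (x j)).re := by
      conv_lhs => rw [Finset.sum_comm]
      rw [← Finset.sum_neg_distrib]
      refine Finset.sum_congr rfl fun i _ => ?_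
      rw [← Finset.sum_neg_distrib]
      refine Finset.sum_congr rfl fun j _ => ?_
      rw [GG_symm V hz.ne' (x j) (x i)]
      simp only [Complex.mul_im, Complex.conj_re, Complex.conj_im]
      ring
    linarith
  calc ∑ i, ∑ j, ((starRingEnd ℂ) (s i) * s j * GG V z (x i) (x j)).im =
      ∑ i, ∑ j, (((starRingEnd ℂ) (s i) * s j).re * (GG V z (x i) (x j)).im +
        ((starRingEnd ℂ) (s i) * s j).im * (GG V z (x i) (x j)).re) := by
        refine Finset.sum_congr rfl fun i _ => Finset.sum_congr rfl fun j _ => ?_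
        rw [Complex.mul_im]
    _ = _ := by
        simp only [Finset.sum_add_distrib]
        rw [h2, add_zero]

end Pool.Agent.T2h44.GU
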