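import Pool.Agent.T2h44.GU.Core
import Pool.Agent.TH980.IM.Main

set_option autoImplicit false

/-! Infinite multiplicity of the absolutely continuous spectrum, arbitrary laws. -/

open MeasureTheory Filter Topology Set
open scoped ENNReal NNReal InnerProductSpace
open Pool.Agent.TH980.IM (Sd L2 ee ee_apply inner_ee inner_ee' BT kap kap_pos zk zk_im_pos
  continuous_zk tendsto_zk ae_swap PhiS meas_PhiS dominant exists_kernel two_points)
open Pool.Agent.H12R2.And (mutuallySingular_of_rnDeriv)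
open Pool.Agent.TH980.IM.PR hiding decay

namespace Pool.Agent.T2h44.GU

variable {d : ℕ}

/-- positive definiteness of the resolvent forms -/
theorem posdef {V : Sd d → ℝ} {h : Sd d → (Sd d → ℝ) × ℝ → ℂ} {E : ℝ}
    (hE : ∀ x y : Sd d, Tendsto (fun k => GG V (zk k E) x y) atTop
      (𝓝 (h (y - x) (sh x V, E)))) {n j : ℕ} {x : Fin (n + 1) → Sd d}
    (hP : (V, E) ∈ PhiS h n j x) (s : Fin (n + 1) → ℂ) :
    ∀ᶠ k in atTop, 1 / (4 * ((j : ℝ) + 1)) * ∑ i, ‖s i‖ ^ 2 ≤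
      qn V (zk k E) (∑ i, s i • ee (x i)) ^ 2 := by
  by_cases hs : s = 0
  · apply Eventually.of_forall
    intro k
    subst hs
    simp only [Pi.zero_apply, norm_zero, ne_eq, OfNat.ofNat_ne_zero, not_false_eq_true, zero_pow,
      Finset.sum_const_zero, mul_zero]
    positivity
  have hspos : 0 < ∑ i, ‖s i‖ ^ 2 := by
    obtain ⟨i, hi⟩ := Function.ne_iff.1 hs
    apply Finset.sum_pos' (fun i _ => by positivity)
    refine ⟨i, Finset.mem_univ i, ?_⟩
    have : 0 < ‖s i‖ := norm_pos_iff.2 hi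
    positivity
  have hδ : (0 : ℝ) < 1 / ((j : ℝ) + 1) := by positivity
  have h1 := dominant hδ (fun i k => (h (x k - x i) (sh (x i) V, E)).im)
    (fun i => by
      have := hP.1 i
      simpa only [sub_self] using this) (fun i k hik => hP.2 i k hik) s
  have h2 : Tendsto (fun k => qn V (zk k E) (∑ i, s i • ee (x i)) ^ 2) atTop
      (𝓝 (∑ i, ∑ k, ((starRingEnd ℂ) (s i) * s k).re *
        (h (x k - x i) (sh (x i) V, E)).im)) := by
    have h3 : Tendsto (fun m => ∑ i, ∑ k, ((starRingEnd ℂ) (s i) * s k).re *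
        (GG V (zk m E) (x i) (x k)).im) atTop
        (𝓝 (∑ i, ∑ k, ((starRingEnd ℂ) (s i) * s k).re *
        (h (x k - x i) (sh (x i) V, E)).im)) := by
      apply tendsto_finsetSum
      intro i _
      apply tendsto_finsetSum
      intro k _
      apply Tendsto.const_mul
      exact (Complex.continuous_im.tendsto _).comp (hE (x i) (x k))
    refine h3.congr fun m => ?_
    exact (qn_form V (zk_im_pos m E) x s).symm
  have h4 : 1 / (4 * ((j : ℝ) + 1)) * ∑ i, ‖s i‖ ^ 2 <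
      ∑ i, ∑ k, ((starRingEnd ℂ) (s i) * s k).re * (h (x k - x i) (sh (x i) V, E)).im := by
    refine lt_of_lt_of_le ?_ h1
    apply mul_lt_mul_of_pos_right _ hspos
    rw [div_div, div_lt_div_iff₀ (by positivity) (by positivity)]
    have : (0 : ℝ) < (j : ℝ) + 1 := by positivity
    linarith
  filter_upwards [h2.eventually (lt_mem_nhds h4)] with k hk
  exact hk.le

/-! ### approximation -/

theorem tendsto_im_zk (E : ℝ) : Tendsto (fun k => (zk k E).im) atTop (𝓝 0) := by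
  have := (Complex.continuous_im.tendsto _).comp (tendsto_zk E)
  rw [Complex.ofReal_im] at this
  exact this

/-- small vectors have small densities -/
theorem dn_small (V : Sd d → ℝ) {u : ℕ → L2 d} (hu : ∀ m, ‖u m‖ ≤ (1 / 2) ^ m) :
    ∀ᵐ E : ℝ, Tendsto (fun m => dn V (u m) E) atTop (𝓝 0) := by
  have h1 : ∑' m, ∫⁻ E, (spm V (u m)).rnDeriv volume E ≠ ∞ := by
    have h2 : ∑' m, ∫⁻ E, (spm V (u m)).rnDeriv volume E ≤
        ∑' m : ℕ, ENNReal.ofReal ((1 / 4) ^ m) := by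
      apply ENNReal.tsum_le_tsum
      intro m
      refine Measure.lintegral_rnDeriv_le.trans ?_
      rw [← ofReal_measureReal]
      apply ENNReal.ofReal_le_ofReal
      refine (spm_mass V (u m)).trans ?_
      calc ‖u m‖ ^ 2 ≤ ((1 / 2) ^ m) ^ 2 := pow_le_pow_left₀ (norm_nonneg _) (hu m) 2
        _ = (1 / 4) ^ m := by rw [← pow_mul, mul_comm, pow_mul]; norm_num
    refine ne_top_of_le_ne_top ?_ h2
    rw [← ENNReal.ofReal_tsum_of_nonneg (fun m => by positivity)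
      (summable_geometric_of_lt_one (by norm_num) (by norm_num))]
    exact ENNReal.ofReal_ne_top
  rw [← lintegral_tsum fun m => (Measure.measurable_rnDeriv _ _).aemeasurable] at h1
  have h3 := ae_lt_top' (AEMeasurable.tsum fun m =>
    (Measure.measurable_rnDeriv (spm V (u m)) volume).aemeasurable) h1
  filter_upwards [h3] with E hE
  have h4 := ENNReal.tendsto_atTop_zero_of_tsum_ne_top hE.ne
  have h5 := (ENNReal.tendsto_toReal (a := 0) (by simp)).comp h4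
  rw [ENNReal.toReal_zero] at h5
  exact h5

/-- negligible vectors -/
def Neg (V : Sd d → ℝ) (E : ℝ) (u : L2 d) : Prop :=
  Tendsto (fun k => qn V (zk k E) u) atTop (𝓝 0)

theorem Neg.add {V : Sd d → ℝ} {E : ℝ} {u v : L2 d} (hu : Neg V E u) (hv : Neg V E v) :
    Neg V E (u + v) := by
  have h := Tendsto.add hu hv
  rw [add_zero] at h
  exact squeeze_zero (fun k => qn_nonneg _ _ _) (fun k => qn_add _ _ _ _) h

theorem Neg.smul {V : Sd d → ℝ} {E : ℝ} {u : L2 d} (c : ℂ) (hu : Neg V E u) :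
    Neg V E (c • u) := by
  have h := Tendsto.const_mul ‖c‖ hu
  rw [mul_zero] at h
  exact h.congr fun k => (qn_smul _ _ _ _).symm

theorem Neg.zero (V : Sd d → ℝ) (E : ℝ) : Neg V E 0 := by
  unfold Neg
  simp only [qn_zero]
  exact tendsto_const_nhds

theorem Neg.sum {V : Sd d → ℝ} {E : ℝ} {ι : Type} (s : Finset ι) {f : ι → L2 d}
    (hf : ∀ i ∈ s, Neg V E (f i)) : Neg V E (∑ i ∈ s, f i) := by
  classical
  induction s using Finset.induction_on with
  | empty => simpa using Neg.zero V E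
  | insert a s ha ih =>
    rw [Finset.sum_insert ha]
    exact (hf a (Finset.mem_insert_self a s)).add
      (ih fun i hi => hf i (Finset.mem_insert_of_mem hi))

/-- resolvents act like numbers -/
theorem neg_res (V : Sd d → ℝ) {z : ℂ} (hz : z.im ≠ 0) (u : L2 d) {E : ℝ}
    (hb : ∃ B : ℝ, ∀ k, qn V (zk k E) u ≤ B) :
    Neg V E (RV V z u - ((E : ℂ) - z)⁻¹ • u) := by
  obtain ⟨B, hB⟩ := hb
  have hEz : (E : ℂ) - z ≠ 0 := by
    intro h
    have := congrArg Complex.im h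
    simp at this
    exact hz this
  have hzE : Tendsto (fun k => zk k E - z) atTop (𝓝 ((E : ℂ) - z)) := (tendsto_zk E).sub_const z
  have hne : ∀ᶠ k in atTop, zk k E - z ≠ 0 := hzE.eventually_ne hEz
  have hinv : Tendsto (fun k => (zk k E - z)⁻¹) atTop (𝓝 (((E : ℂ) - z)⁻¹)) := hzE.inv₀ hEz
  have h0 : Tendsto (fun k => ‖(zk k E - z)⁻¹ - ((E : ℂ) - z)⁻¹‖ * B +
      Real.sqrt (zk k E).im * (‖(zk k E - z)⁻¹‖ * ‖RV V z u‖)) atTop (𝓝 0) := by
    have h1 : Tendsto (fun k => ‖(zk k E - z)⁻¹ - ((E : ℂ) - z)⁻¹‖ * B) atTop (𝓝 (0 * B)) :=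
      (tendsto_iff_norm_sub_tendsto_zero.1 hinv).mul_const B
    have h2 : Tendsto (fun k => Real.sqrt (zk k E).im * (‖(zk k E - z)⁻¹‖ * ‖RV V z u‖)) atTop
        (𝓝 (Real.sqrt 0 * (‖((E : ℂ) - z)⁻¹‖ * ‖RV V z u‖))) :=
      ((Real.continuous_sqrt.tendsto 0).comp (tendsto_im_zk E)).mul (hinv.norm.mul_const _)
    have h3 := h1.add h2
    simpa using h3
  refine squeeze_zero' (Eventually.of_forall fun k => qn_nonneg _ _ _) ?_ h0
  filter_upwards [hne] with k hk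
  have hk0 : (zk k E).im ≠ 0 := (zk_im_pos k E).ne'
  have e1 : RV V (zk k E) (RV V z u) = (zk k E - z)⁻¹ • (RV V (zk k E) u - RV V z u) := by
    rw [RV_res V hk0 hz, smul_smul, inv_mul_cancel₀ hk, one_smul]
  have e2 : RV V (zk k E) (RV V z u - ((E : ℂ) - z)⁻¹ • u) =
      ((zk k E - z)⁻¹ - ((E : ℂ) - z)⁻¹) • RV V (zk k E) u - (zk k E - z)⁻¹ • RV V z u := by
    rw [map_sub, map_smul, e1, smul_sub, sub_smul]
    abel
  unfold qn
  rw [e2]
  have h4 : ‖((zk k E - z)⁻¹ - ((E : ℂ) - z)⁻¹) • RV V (zk k E) u - (zk k E - z)⁻¹ • RV V z u‖ ≤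
      ‖(zk k E - z)⁻¹ - ((E : ℂ) - z)⁻¹‖ * ‖RV V (zk k E) u‖ +
        ‖(zk k E - z)⁻¹‖ * ‖RV V z u‖ := by
    refine (norm_sub_le _ _).trans ?_
    rw [norm_smul, norm_smul]
  calc Real.sqrt (zk k E).im * _ ≤ Real.sqrt (zk k E).im *
        (‖(zk k E - z)⁻¹ - ((E : ℂ) - z)⁻¹‖ * ‖RV V (zk k E) u‖ +
        ‖(zk k E - z)⁻¹‖ * ‖RV V z u‖) := mul_le_mul_of_nonneg_left h4 (Real.sqrt_nonneg _)
    _ = ‖(zk k E - z)⁻¹ - ((E : ℂ) - z)⁻¹‖ * (qn V (zk k E) u) +
        Real.sqrt (zk k E).im * (‖(zk k E - z)⁻¹‖ * ‖RV V z u‖) := by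
        unfold qn
        ring
    _ ≤ _ := by
        have := mul_le_mul_of_nonneg_left (hB k) (norm_nonneg ((zk k E - z)⁻¹ - ((E : ℂ) - z)⁻¹))
        linarith

/-- the span of the vectors `(H - z)⁻¹ ψ_i` -/
noncomputable def Cy (V : Sd d → ℝ) {n : ℕ} (ψ : Fin n → L2 d) : Submodule ℂ (L2 d) :=
  Submodule.span ℂ {v | ∃ (i : Fin n) (z : ℂ), z.im ≠ 0 ∧ v = RV V z (ψ i)}

theorem cy_rep {V : Sd d → ℝ} {n : ℕ} {ψ : Fin n → L2 d} {E : ℝ}
    (hb : ∀ i, ∃ B : ℝ, ∀ k, qn V (zk k E) (ψ i) ≤ B) {v : L2 d} (hv : v ∈ Cy V ψ) :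
    ∃ c : Fin n → ℂ, Neg V E (v - ∑ i, c i • ψ i) := by
  classical
  unfold Cy at hv
  induction hv using Submodule.span_induction with
  | mem v hv =>
    obtain ⟨i, z, hz, rfl⟩ := hv
    refine ⟨Pi.single i (((E : ℂ) - z)⁻¹), ?_⟩
    have e : ∑ j, (Pi.single i (((E : ℂ) - z)⁻¹) : Fin n → ℂ) j • ψ j =
        ((E : ℂ) - z)⁻¹ • ψ i := by
      rw [Finset.sum_eq_single i]
      · rw [Pi.single_eq_same]
      · intro j _ hj
        rw [Pi.single_eq_of_ne hj, zero_smul]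
      · intro h
        exact absurd (Finset.mem_univ i) h
    rw [e]
    exact neg_res V hz _ (hb i)
  | zero =>
    refine ⟨0, ?_⟩
    simpa using Neg.zero V E
  | add u v _ _ hu hv =>
    obtain ⟨c, hc⟩ := hu
    obtain ⟨c', hc'⟩ := hv
    refine ⟨c + c', ?_⟩
    have e : u + v - ∑ i, (c + c') i • ψ i = (u - ∑ i, c i • ψ i) + (v - ∑ i, c' i • ψ i) := by
      simp only [Pi.add_apply, add_smul, Finset.sum_add_distrib]
      abel
    rw [e]
    exact hc.add hc'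
  | smul a u _ hu =>
    obtain ⟨c, hc⟩ := hu
    refine ⟨fun i => a * c i, ?_⟩
    have e : a • u - ∑ i, (a * c i) • ψ i = a • (u - ∑ i, c i • ψ i) := by
      rw [smul_sub, Finset.smul_sum]
      simp only [smul_smul]
    rw [e]
    exact hc.smul a

/-- the rank bound at one energy -/
theorem rank_bound {V : Sd d → ℝ} {n : ℕ} {ψ : Fin n → L2 d} {E : ℝ}
    (hb : ∀ i, ∃ B : ℝ, ∀ k, qn V (zk k E) (ψ i) ≤ B) {e : Fin (n + 1) → L2 d} {c : ℝ} (hc : 0 < c)
    (hPD : ∀ s : Fin (n + 1) → ℂ, ∀ᶠ k in atTop,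
      c * ∑ i, ‖s i‖ ^ 2 ≤ qn V (zk k E) (∑ i, s i • e i) ^ 2)
    (happ : ∀ i, ∀ ε : ℝ, 0 < ε → ∃ v ∈ Cy V ψ, ∀ᶠ k in atTop, qn V (zk k E) (e i - v) ≤ ε) :
    False := by
  obtain ⟨ε, hε, hε2⟩ : ∃ ε : ℝ, 0 < ε ∧ ((n : ℝ) + 2) * ε < Real.sqrt c := by
    have h1 : 0 < Real.sqrt c := Real.sqrt_pos.2 hc
    refine ⟨Real.sqrt c / (2 * ((n : ℝ) + 2)), by positivity, ?_⟩
    have : ((n : ℝ) + 2) * (Real.sqrt c / (2 * ((n : ℝ) + 2))) = Real.sqrt c / 2 := by
      field_simp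
    linarith
  choose v hv hve using fun i => happ i ε hε
  choose M hM using fun i => cy_rep hb (hv i)
  obtain ⟨s0, hs0, hs1⟩ := exists_kernel M
  -- normalize
  have hN : 0 < ∑ i, ‖s0 i‖ ^ 2 := by
    obtain ⟨i, hi⟩ := Function.ne_iff.1 hs0
    apply Finset.sum_pos' (fun i _ => by positivity)
    refine ⟨i, Finset.mem_univ i, ?_⟩
    have : 0 < ‖s0 i‖ := norm_pos_iff.2 hi
    positivity
  obtain ⟨r, hr⟩ : ∃ r : ℝ, r = Real.sqrt (∑ i, ‖s0 i‖ ^ 2) := ⟨_, rfl⟩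
  have hr0 : 0 < r := by rw [hr]; exact Real.sqrt_pos.2 hN
  have hr2 : r ^ 2 = ∑ i, ‖s0 i‖ ^ 2 := by rw [hr]; exact Real.sq_sqrt hN.le
  have hle : ∀ i, ‖s0 i‖ ≤ r := by
    intro i
    rw [← abs_of_nonneg (norm_nonneg (s0 i)), ← abs_of_pos hr0, ← sq_le_sq, hr2]
    exact Finset.single_le_sum (f := fun i => ‖s0 i‖ ^ 2) (fun i _ => by positivity)
      (Finset.mem_univ i)
  have hneg : Neg V E (∑ i, s0 i • v i) := by
    have e1 : ∑ i, s0 i • v i = ∑ i, s0 i • (v i - ∑ j, M i j • ψ j) := by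
      simp only [smul_sub, Finset.sum_sub_distrib, Finset.smul_sum, smul_smul]
      rw [Finset.sum_comm]
      simp only [← Finset.sum_smul]
      have : ∑ j, (∑ i, s0 i * M i j) • ψ j = 0 :=
        Finset.sum_eq_zero fun j _ => by rw [hs1 j, zero_smul]
      rw [this, sub_zero]
    rw [e1]
    exact Neg.sum _ fun i _ => (hM i).smul _
  have h1 : ∀ᶠ k in atTop, qn V (zk k E) (∑ i, s0 i • v i) < r * ε :=
    hneg.eventually (gt_mem_nhds (by positivity))
  have h2 : ∀ᶠ k in atTop, ∀ i, qn V (zk k E) (e i - v i) ≤ ε := by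
    rw [eventually_all]
    exact hve
  obtain ⟨k, k1, k2, k3⟩ := (h1.and (h2.and (hPD s0))).exists
  have h3 : qn V (zk k E) (∑ i, s0 i • e i) ≤ ((n : ℝ) + 2) * (r * ε) := by
    have e2 : ∑ i, s0 i • e i = ∑ i, s0 i • (e i - v i) + ∑ i, s0 i • v i := by
      rw [← Finset.sum_add_distrib]
      refine Finset.sum_congr rfl fun i _ => ?_
      rw [← smul_add, sub_add_cancel]
    rw [e2]
    refine (qn_add _ _ _ _).trans ?_
    have h4 : qn V (zk k E) (∑ i, s0 i • (e i - v i)) ≤ ∑ _i : Fin (n + 1), r * ε := by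
      refine (qn_sum V Finset.univ _ s0 fun i => e i - v i).trans (Finset.sum_le_sum fun i _ => ?_)
      exact mul_le_mul (hle i) (k2 i) (qn_nonneg _ _ _) hr0.le
    rw [Finset.sum_const, Finset.card_univ, Fintype.card_fin, nsmul_eq_mul] at h4
    push_cast at h4
    linarith
  have h5 : (Real.sqrt c * r) ^ 2 ≤ (((n : ℝ) + 2) * (r * ε)) ^ 2 := by
    rw [mul_pow, Real.sq_sqrt hc.le, hr2]
    exact k3.trans (pow_le_pow_left₀ (qn_nonneg _ _ _) h3 2)
  have h6 : Real.sqrt c * r ≤ ((n : ℝ) + 2) * (r * ε) :=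
    le_of_sq_le_sq h5 (by positivity)
  have h7 : (((n : ℝ) + 2) * ε) * r < Real.sqrt c * r := mul_lt_mul_of_pos_right hε2 hr0
  linarith

/-- a measure which is singular on a set has density zero there -/
theorem rnDeriv_zero {μ : Measure ℝ} [IsFiniteMeasure μ] {B : Set ℝ} (hB : MeasurableSet B)
    (h : (μ.restrict B) ⟂ₘ volume) : ∀ᵐ E : ℝ, E ∈ B → μ.rnDeriv volume E = 0 := by
  have h1 := h.rnDeriv_ae_eq_zero
  have h2 := Measure.rnDeriv_restrict μ volume hB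
  filter_upwards [h1, h2] with E e1 e2 hE
  rw [e2, indicator_of_mem hE] at e1
  exact e1

/-- outside the set of energies there is no absolutely continuous spectrum -/
theorem no_ac {V : Sd d → ℝ} {h : Sd d → (Sd d → ℝ) × ℝ → ℂ}
    (hE : ∀ᵐ E : ℝ, ∀ x y : Sd d, Tendsto (fun k => GG V (zk k E) x y) atTop
      (𝓝 (h (y - x) (sh x V, E)))) {B : Set ℝ} (hB : MeasurableSet B)
    (h0 : ∀ᵐ E : ℝ, E ∈ B → ∀ x : Sd d, (h 0 (sh x V, E)).im ≤ 0)
    {φ : L2 d} {μ : Measure ℝ} [IsFiniteMeasure μ]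
    (hμ : ∀ z : ℂ, z.im ≠ 0 → BT μ z = inner ℂ φ (RV V z φ)) :
    (μ.restrict B) ⟂ₘ volume := by
  apply mutuallySingular_of_rnDeriv hB
  -- the unit vectors
  have hunit : ∀ᵐ E : ℝ, E ∈ B → ∀ x : Sd d, Neg V E (ee x) := by
    filter_upwards [hE, h0] with E e1 e2 hEB x
    have e3 := e1 x x
    rw [sub_self] at e3
    have e4 : Tendsto (fun k => qn V (zk k E) (ee x) ^ 2) atTop (𝓝 (h 0 (sh x V, E)).im) := by
      refine ((Complex.continuous_im.tendsto _).comp e3).congr fun k => ?_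
      rw [qn_sq V (zk_im_pos k E), ← GG_inner]
      rfl
    have e5 : (h 0 (sh x V, E)).im = 0 :=
      le_antisymm (e2 hEB x) (ge_of_tendsto' e4 fun k => sq_nonneg _)
    rw [e5] at e4
    have e6 := (Real.continuous_sqrt.tendsto 0).comp e4
    rw [Real.sqrt_zero] at e6
    exact e6.congr fun k => Real.sqrt_sq (qn_nonneg _ _ _)
  choose p hp1 hp2 using fun m : ℕ => Dn_dense φ ((1 / 2) ^ m) (by positivity)
  have hsm := dn_small V (u := fun m => φ - p m) fun m => (hp2 m).le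
  have hq : ∀ᵐ E : ℝ, ∀ m, Tendsto (fun k => qn V (zk k E) (φ - p m)) atTop
      (𝓝 (Real.sqrt (kap * dn V (φ - p m) E))) := by
    rw [ae_all_iff]
    exact fun m => qn_tendsto V (φ - p m)
  have hfin : ∀ᵐ E : ℝ, μ.rnDeriv volume E < ∞ := Measure.rnDeriv_lt_top μ volume
  rw [ae_restrict_iff' hB]
  filter_upwards [hunit, hsm, hq, qn_tendsto_of hμ, hfin] with E e1 e2 e3 e4 e5 hEB
  have h1 : ∀ m, Neg V E (p m) := by
    intro m
    obtain ⟨s, c, hsc⟩ := hp1 m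
    rw [hsc]
    exact Neg.sum s fun x _ => (e1 hEB x).smul _
  have h2 : ∀ m, Real.sqrt (kap * (μ.rnDeriv volume E).toReal) ≤
      Real.sqrt (kap * dn V (φ - p m) E) := by
    intro m
    have h3 := (e3 m).add (h1 m)
    rw [add_zero] at h3
    refine le_of_tendsto_of_tendsto' e4 h3 fun k => ?_
    have h4 := qn_add V (zk k E) (φ - p m) (p m)
    rwa [sub_add_cancel] at h4
  have h3 : Tendsto (fun m => Real.sqrt (kap * dn V (φ - p m) E)) atTop (𝓝 0) := by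
    have h4 := (Real.continuous_sqrt.tendsto _).comp (e2.const_mul kap)
    rw [mul_zero, Real.sqrt_zero] at h4
    exact h4
  have h4 : Real.sqrt (kap * (μ.rnDeriv volume E).toReal) ≤ 0 := ge_of_tendsto' h3 h2
  have h5 : kap * (μ.rnDeriv volume E).toReal ≤ 0 := by
    by_contra hc
    rw [not_le] at hc
    exact absurd h4 (not_le.2 (Real.sqrt_pos.2 hc))
  have h6 : (μ.rnDeriv volume E).toReal = 0 := by
    have h7 : 0 ≤ (μ.rnDeriv volume E).toReal := ENNReal.toReal_nonneg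
    nlinarith [kap_pos]
  rcases (ENNReal.toReal_eq_zero_iff _).1 h6 with h7 | h7
  · exact h7
  · exact absurd h7 e5.ne

/-- the deterministic part of the main theorem -/
theorem main_det {V : Sd d → ℝ} {h : Sd d → (Sd d → ℝ) × ℝ → ℂ} {Sg : Set ℝ}
    (h1 : ∀ᵐ E : ℝ, ∀ x y : Sd d, Tendsto (fun k => GG V (zk k E) x y) atTop
      (𝓝 (h (y - x) (sh x V, E))))
    (h2 : ∀ᵐ E : ℝ, E ∈ Sg → ∀ n : ℕ, ∃ (j : ℕ) (x : Fin (n + 1) → Sd d), (V, E) ∈ PhiS h n j x)
    {B : Set ℝ} (hB : MeasurableSet B) (hB0 : volume (B ∩ Sg) ≠ 0)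
    (n : ℕ) (ψ : Fin n → L2 d) :
    ∃ g : L2 d, (∀ (i : Fin n) (z : ℂ), z.im ≠ 0 → inner ℂ g (RV V z (ψ i)) = 0) ∧
      ¬ ((spm V g).restrict B) ⟂ₘ volume := by
  by_contra hcon
  push Not at hcon
  apply hB0
  -- decomposition of the unit vectors
  have hdec : ∀ y : Sd d, ∃ a b : L2 d, ee y = a + b ∧ a ∈ (Cy V ψ).topologicalClosure ∧
      ∀ (i : Fin n) (z : ℂ), z.im ≠ 0 → inner ℂ b (RV V z (ψ i)) = 0 := by
    intro y
    have : CompleteSpace (Cy V ψ).topologicalClosure :=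
      (Submodule.isClosed_topologicalClosure (Cy V ψ)).completeSpace_coe
    obtain ⟨a, ha, b, hb, hv⟩ :=
      (Cy V ψ).topologicalClosure.exists_add_mem_mem_orthogonal (ee y)
    refine ⟨a, b, hv, ha, fun i z hz => ?_⟩
    rw [Submodule.mem_orthogonal'] at hb
    exact hb _ (Submodule.le_topologicalClosure _ (Submodule.subset_span ⟨i, z, hz, rfl⟩))
  choose a b hab ha hb using hdec
  have happ : ∀ (y : Sd d) (m : ℕ), ∃ w ∈ Cy V ψ, ‖a y - w‖ ≤ (1 / 2 : ℝ) ^ m := by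
    intro y m
    have h3 : a y ∈ closure ((Cy V ψ : Submodule ℂ (L2 d)) : Set (L2 d)) := ha y
    obtain ⟨w, hw, hw2⟩ := Metric.mem_closure_iff.1 h3 ((1 / 2) ^ m) (by positivity)
    refine ⟨w, hw, ?_⟩
    rw [← dist_eq_norm]
    exact hw2.le
  choose w hw hw2 using happ
  have e1 : ∀ᵐ E : ℝ, ∀ y, Tendsto (fun m => dn V (a y - w y m) E) atTop (𝓝 0) := by
    rw [ae_all_iff]
    exact fun y => dn_small V (hw2 y)
  have e2 : ∀ᵐ E : ℝ, ∀ y m, Tendsto (fun k => qn V (zk k E) (a y - w y m)) atTop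
      (𝓝 (Real.sqrt (kap * dn V (a y - w y m) E))) := by
    rw [ae_all_iff]
    intro y
    rw [ae_all_iff]
    exact fun m => qn_tendsto V _
  have e3 : ∀ᵐ E : ℝ, E ∈ B → ∀ y, Neg V E (b y) := by
    have e4 : ∀ᵐ E : ℝ, ∀ y, E ∈ B → Neg V E (b y) := by
      rw [ae_all_iff]
      intro y
      filter_upwards [rnDeriv_zero hB (hcon (b y) (hb y)), qn_tendsto V (b y)] with E e5 e6 hE
      have e7 : dn V (b y) E = 0 := by
        unfold dn
        rw [e5 hE, ENNReal.toReal_zero]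
      rw [e7, mul_zero, Real.sqrt_zero] at e6
      exact e6
    filter_upwards [e4] with E e5 hE y
    exact e5 y hE
  have e4 : ∀ᵐ E : ℝ, ∀ i, ∃ B' : ℝ, ∀ k, qn V (zk k E) (ψ i) ≤ B' := by
    rw [ae_all_iff]
    intro i
    filter_upwards [qn_tendsto V (ψ i)] with E e5
    obtain ⟨B', hB'⟩ := e5.bddAbove_range
    exact ⟨B', fun k => hB' ⟨k, rfl⟩⟩
  have key : ∀ᵐ E : ℝ, E ∉ B ∩ Sg := by
    filter_upwards [h1, h2, e1, e2, e3, e4] with E k1 k2 k3 k4 k5 k6 hE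
    obtain ⟨j, x, hjx⟩ := k2 hE.2 n
    refine rank_bound k6 (c := 1 / (4 * ((j : ℝ) + 1))) (by positivity)
      (e := fun i => ee (x i)) (posdef k1 hjx) ?_
    intro i ε hε
    have h3 : Tendsto (fun m => Real.sqrt (kap * dn V (a (x i) - w (x i) m) E)) atTop (𝓝 0) := by
      have h4 := (Real.continuous_sqrt.tendsto _).comp ((k3 (x i)).const_mul kap)
      rw [mul_zero, Real.sqrt_zero] at h4
      exact h4
    obtain ⟨m, hm⟩ := (h3.eventually (gt_mem_nhds (half_pos hε))).exists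
    refine ⟨w (x i) m, hw _ _, ?_⟩
    filter_upwards [(k4 (x i) m).eventually (gt_mem_nhds hm),
      (k5 hE.1 (x i)).eventually (gt_mem_nhds (half_pos hε))] with k l1 l2
    have e5 : ee (x i) - w (x i) m = (a (x i) - w (x i) m) + b (x i) := by
      rw [hab]
      abel
    simp only [e5]
    refine (qn_add _ _ _ _).trans ?_
    linarith
  rw [ae_iff] at key
  simpa only [not_not] using! key

/-- **Infinite multiplicity.** -/
theorem main (hd : 1 ≤ d) {ν : Measure ℝ} [IsProbabilityMeasure ν] (hν : ∀ r : ℝ, ν {r} ≠ 1) :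
    ∃ S : Set ℝ, MeasurableSet S ∧ ∀ᵐ V ∂(PP (Sd d) ν), ∀ B : Set ℝ, MeasurableSet B →
      (volume (B ∩ S) = 0 → ∀ (φ : L2 d) (μ : Measure ℝ), IsFiniteMeasure μ →
        (∀ z : ℂ, z.im ≠ 0 → BT μ z = inner ℂ φ (RV V z φ)) → (μ.restrict B) ⟂ₘ volume) ∧
      (volume (B ∩ S) ≠ 0 → ∀ (n : ℕ) (ψ : Fin n → L2 d), ∃ g : L2 d,
        (∀ (i : Fin n) (z : ℂ), z.im ≠ 0 → inner ℂ g (RV V z (ψ i)) = 0) ∧
        ¬ ((spm V g).restrict B) ⟂ₘ volume) := by
  obtain ⟨a, b, ε0, hε0, hab, ha, hb⟩ := two_points hν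
  obtain ⟨h, Sg, hSg, hm, hcore⟩ := core hd hε0 hab ha hb
  refine ⟨Sg, hSg, ?_⟩
  filter_upwards [hcore] with V ⟨h1, h2, h3⟩ B hB
  refine ⟨fun hB0 φ μ hμf hμ => ?_, fun hB0 n ψ => main_det h1 h2 hB hB0 n ψ⟩
  refine no_ac h1 hB ?_ hμ
  have h4 : ∀ᵐ E : ℝ, E ∉ B ∩ Sg := by
    rw [ae_iff]
    simpa only [not_not] using! hB0
  filter_upwards [h3, h4] with E k1 k2 hE
  exact k1 fun hS => k2 ⟨hE, hS⟩

end Pool.Agent.T2h44.GU
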