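import Pool.Agent.TH980.IM.Lat

set_option autoImplicit false

/-! The resolvent of `Δ + V` on `ℓ²(ℤ^d)`, `(Δ u)(x) = ∑_{|y-x|=1} u(y)`, for arbitrary (unbounded)
real potentials `V`. -/

open MeasureTheory Filter Topology Set
open scoped ENNReal NNReal InnerProductSpace
open Pool.Agent.H12R2.And (Rz isUnit_sub sub_Rz im_inner norm_Rz_le diff_inner diff_Rz)
open Pool.Agent.TH980.IM (Sd L2 ee ee_apply inner_ee inner_ee' HV HV_apply HV_sa cl cl_abs cl_eq)

namespace Pool.Agent.T2h44.GU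

variable {d : ℕ}

/-- the adjacency operator -/
noncomputable def Ad (d : ℕ) : L2 d →L[ℂ] L2 d := (2 * d : ℂ) • (1 : L2 d →L[ℂ] L2 d) - HV 0 0

theorem cl_zero (v : ℝ) : cl 0 v = 0 := by
  have := cl_abs 0 v
  simpa using this

theorem Ad_apply (u : L2 d) (x : Sd d) :
    (Ad d u) x = ∑ i : Fin d, (u (x + Pi.single i 1) + u (x - Pi.single i 1)) := by
  have h : (Ad d u) x = 2 * d * u x - (HV 0 0 u) x := rfl
  rw [h, HV_apply]
  simp only [cl_zero, Complex.ofReal_zero, zero_mul, add_zero, Finset.sum_sub_distrib,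
    Finset.sum_add_distrib]
  simp
  ring

theorem Ad_sa : IsSelfAdjoint (Ad d) := by
  unfold Ad
  apply IsSelfAdjoint.sub
  · have h : ((2 * d : ℂ) • (1 : L2 d →L[ℂ] L2 d)) = ((2 * d : ℝ) : ℂ) • (1 : L2 d →L[ℂ] L2 d) := by
      push_cast; rfl
    rw [h]
    exact IsSelfAdjoint.smul (by simp [IsSelfAdjoint]) (IsSelfAdjoint.one _)
  · exact HV_sa 0 0

/-- `u` solves `(Δ + V - z) u = f` -/
def Sol (V : Sd d → ℝ) (z : ℂ) (f u : L2 d) : Prop :=
  ∀ x, (Ad d u) x + (V x : ℂ) * u x - z * u x = f x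

/-- two vectors multiplied by a real function -/
theorem inner_mult (V : Sd d → ℝ) (a b Va Vb : L2 d) (ha : ∀ x, Va x = (V x : ℂ) * a x)
    (hb : ∀ x, Vb x = (V x : ℂ) * b x) : inner ℂ a Vb = inner ℂ Va b := by
  rw [lp.inner_eq_tsum, lp.inner_eq_tsum]
  refine tsum_congr fun x => ?_
  rw [ha, hb]
  simp only [RCLike.inner_apply, map_mul, Complex.conj_ofReal]
  ring

theorem Sol.mult {V : Sd d → ℝ} {z : ℂ} {f u : L2 d} (h : Sol V z f u) (x : Sd d) :
    (f - Ad d u + z • u) x = (V x : ℂ) * u x := by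
  have h1 := h x
  have h2 : (f - Ad d u + z • u) x = f x - (Ad d u) x + z * u x := rfl
  rw [h2, ← h1]
  ring

theorem Sol.adj {V : Sd d → ℝ} {z : ℂ} {f g a b : L2 d}
    (ha : Sol V ((starRingEnd ℂ) z) f a) (hb : Sol V z g b) : inner ℂ a g = inner ℂ f b := by
  have h := inner_mult V a b _ _ ha.mult hb.mult
  rw [inner_add_right, inner_sub_right, inner_add_left, inner_sub_left, inner_smul_right,
    inner_smul_left, Complex.conj_conj] at h
  have h2 := Ad_sa.isSymmetric a b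
  have h3 : inner ℂ (Ad d a) b = inner ℂ a (Ad d b) := h2
  rw [h3] at h
  linear_combination h

theorem Sol.im {V : Sd d → ℝ} {z : ℂ} {f u : L2 d} (h : Sol V z f u) :
    (inner ℂ u f).im = -(z.im * ‖u‖ ^ 2) := by
  have h1 := inner_mult V u u _ _ h.mult h.mult
  rw [inner_add_right, inner_sub_right, inner_add_left, inner_sub_left, inner_smul_right,
    inner_smul_left] at h1
  have h3 : inner ℂ (Ad d u) u = inner ℂ u (Ad d u) := Ad_sa.isSymmetric u u
  rw [h3] at h1
  have h4 : inner ℂ u f - inner ℂ f u = ((starRingEnd ℂ) z - z) * inner ℂ u u := by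
    linear_combination h1
  have h5 : inner ℂ f u = (starRingEnd ℂ) (inner ℂ u f) := (inner_conj_symm _ _).symm
  rw [h5, inner_self_eq_norm_sq_to_K] at h4
  have h6 := congrArg Complex.im h4
  simp only [Complex.sub_im, Complex.conj_im, Complex.mul_im, Complex.sub_re, Complex.conj_re,
    Complex.coe_algebraMap, sub_self, zero_mul, zero_add] at h6
  have h7 : (((‖u‖ : ℂ) ^ 2)).re = ‖u‖ ^ 2 := by
    rw [← Complex.ofReal_pow, Complex.ofReal_re]
  rw [h7] at h6
  linarith

theorem Sol.norm_le {V : Sd d → ℝ} {z : ℂ} {f u : L2 d} (h : Sol V z f u) :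
    |z.im| * ‖u‖ ≤ ‖f‖ := by
  have h1 := h.im
  have h2 : |z.im| * ‖u‖ ^ 2 ≤ ‖u‖ * ‖f‖ := by
    have h3 : |z.im * ‖u‖ ^ 2| ≤ ‖u‖ * ‖f‖ := by
      rw [← abs_neg, ← h1]
      exact (Complex.abs_im_le_norm _).trans (norm_inner_le_norm _ _)
    rw [abs_mul, abs_of_nonneg (sq_nonneg ‖u‖)] at h3
    exact h3
  rcases (norm_nonneg u).eq_or_lt with h4 | h4
  · rw [← h4, mul_zero]
    exact norm_nonneg f
  · have h5 : ‖u‖ * (|z.im| * ‖u‖) ≤ ‖u‖ * ‖f‖ := by
      calc ‖u‖ * (|z.im| * ‖u‖) = |z.im| * ‖u‖ ^ 2 := by ring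
        _ ≤ _ := h2
    exact le_of_mul_le_mul_left h5 h4

theorem Sol.sub {V : Sd d → ℝ} {z : ℂ} {f g u v : L2 d} (hu : Sol V z f u) (hv : Sol V z g v) :
    Sol V z (f - g) (u - v) := by
  intro x
  have h1 := hu x
  have h2 := hv x
  rw [map_sub]
  change (Ad d u) x - (Ad d v) x + (V x : ℂ) * (u x - v x) - z * (u x - v x) = f x - g x
  rw [← h1, ← h2]
  ring

theorem Sol.add {V : Sd d → ℝ} {z : ℂ} {f g u v : L2 d} (hu : Sol V z f u) (hv : Sol V z g v) :
    Sol V z (f + g) (u + v) := by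
  intro x
  have h1 := hu x
  have h2 := hv x
  rw [map_add]
  change (Ad d u) x + (Ad d v) x + (V x : ℂ) * (u x + v x) - z * (u x + v x) = f x + g x
  rw [← h1, ← h2]
  ring

theorem Sol.smul {V : Sd d → ℝ} {z : ℂ} {f u : L2 d} (c : ℂ) (hu : Sol V z f u) :
    Sol V z (c • f) (c • u) := by
  intro x
  have h1 := hu x
  rw [map_smul]
  change c * (Ad d u) x + (V x : ℂ) * (c * u x) - z * (c * u x) = c * f x
  rw [← h1]
  ring

theorem Sol.unique {V : Sd d → ℝ} {z : ℂ} (hz : z.im ≠ 0) {f u v : L2 d} (hu : Sol V z f u)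
    (hv : Sol V z f v) : u = v := by
  have h := (hu.sub hv).norm_le
  rw [sub_self, norm_zero] at h
  have h1 : 0 < |z.im| := abs_pos.2 hz
  have h2 : ‖u - v‖ ≤ 0 := by
    by_contra hc
    rw [not_le] at hc
    have := mul_pos h1 hc
    linarith
  exact sub_eq_zero.1 (norm_le_zero_iff.1 h2)

/-- compactness -/
theorem Sol.compact {ι : Type} (U : Ultrafilter ι) {W : ι → Sd d → ℝ} {V : Sd d → ℝ}
    (hW : ∀ x, Tendsto (fun n => W n x) U (𝓝 (V x))) {z : ℂ} (hz : z.im ≠ 0) {f : L2 d}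
    {u : ι → L2 d} (hu : ∀ n, Sol (W n) z f (u n)) :
    ∃ v : L2 d, Sol V z f v ∧ ∀ x, Tendsto (fun n => u n x) U (𝓝 (v x)) := by
  have hz' : 0 < |z.im| := abs_pos.2 hz
  obtain ⟨C, hC⟩ : ∃ C : ℝ, C = ‖f‖ / |z.im| := ⟨_, rfl⟩
  have hC0 : 0 ≤ C := by rw [hC]; positivity
  have hun : ∀ n, ‖u n‖ ≤ C := by
    intro n
    rw [hC, le_div_iff₀ hz', mul_comm]
    exact (hu n).norm_le
  have hsq : ∀ n (s : Finset (Sd d)), ∑ x ∈ s, ‖u n x‖ ^ 2 ≤ C ^ 2 := by
    intro n s
    have h1 := lp.norm_rpow_eq_tsum (by norm_num : 0 < (2 : ℝ≥0∞).toReal) (u n)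
    have h2 := (lp.memℓp (u n)).summable (by norm_num : 0 < (2 : ℝ≥0∞).toReal)
    simp only [ENNReal.toReal_ofNat, Real.rpow_two] at h1 h2
    calc ∑ x ∈ s, ‖u n x‖ ^ 2 ≤ ∑' x, ‖u n x‖ ^ 2 := h2.sum_le_tsum s fun _ _ => by positivity
      _ = ‖u n‖ ^ 2 := h1.symm
      _ ≤ C ^ 2 := pow_le_pow_left₀ (norm_nonneg _) (hun n) 2
  have hex : ∀ x, ∃ a : ℂ, Tendsto (fun n => u n x) U (𝓝 a) := by
    intro x
    have hcomp : IsCompact (Metric.closedBall (0 : ℂ) C) := isCompact_closedBall _ _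
    have hmem : Metric.closedBall (0 : ℂ) C ∈ (U.map fun n => u n x) := by
      rw [Ultrafilter.mem_map]
      refine Filter.mem_of_superset Filter.univ_mem fun n _ => ?_
      simp only [mem_preimage, Metric.mem_closedBall, dist_zero_right]
      have h1 := hsq n {x}
      rw [Finset.sum_singleton] at h1
      exact (sq_le_sq₀ (norm_nonneg _) hC0).1 h1
    obtain ⟨a, -, ha⟩ := hcomp.ultrafilter_le_nhds (U.map fun n => u n x)
      (Filter.le_principal_iff.2 hmem)
    exact ⟨a, ha⟩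
  choose v0 hv0 using hex
  have hmem : Memℓp v0 2 := by
    apply memℓp_gen' (C := C ^ 2)
    intro s
    simp only [ENNReal.toReal_ofNat, Real.rpow_two]
    have h1 : Tendsto (fun n => ∑ x ∈ s, ‖u n x‖ ^ 2) U (𝓝 (∑ x ∈ s, ‖v0 x‖ ^ 2)) :=
      tendsto_finsetSum s fun x _ => ((hv0 x).norm).pow 2
    exact le_of_tendsto h1 (Eventually.of_forall fun n => hsq n s)
  refine ⟨⟨v0, hmem⟩, fun x => ?_, hv0⟩
  have h1 : ∀ n, ∑ i : Fin d, (u n (x + Pi.single i 1) + u n (x - Pi.single i 1)) +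
      (W n x : ℂ) * u n x - z * u n x = f x := by
    intro n
    have := hu n x
    rw [Ad_apply] at this
    exact this
  have h2 : Tendsto (fun n => ∑ i : Fin d, (u n (x + Pi.single i 1) + u n (x - Pi.single i 1)) +
      (W n x : ℂ) * u n x - z * u n x) U
      (𝓝 (∑ i : Fin d, (v0 (x + Pi.single i 1) + v0 (x - Pi.single i 1)) +
      (V x : ℂ) * v0 x - z * v0 x)) := by
    refine Tendsto.sub (Tendsto.add (tendsto_finsetSum _ fun i _ => ?_) ?_) ?_
    · exact (hv0 _).add (hv0 _)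
    · exact ((Complex.continuous_ofReal.tendsto _).comp (hW x)).mul (hv0 x)
    · exact (hv0 x).const_mul z
  rw [Ad_apply]
  refine tendsto_nhds_unique h2 ?_
  simp_rw [h1]
  exact tendsto_const_nhds

theorem cl_neg (K v : ℝ) : cl K (-v) = -cl K v := by
  have hk := abs_nonneg K
  unfold cl
  rcases le_total v (-|K|) with h1 | h1
  · rw [min_eq_left (by linarith), max_eq_right (by linarith), min_eq_right (by linarith),
      max_eq_left h1, neg_neg]
  · rcases le_total v |K| with h2 | h2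
    · rw [min_eq_right (by linarith), max_eq_right (by linarith), min_eq_right h2,
        max_eq_right h1]
    · rw [min_eq_right (by linarith), max_eq_left (by linarith), min_eq_left h2,
        max_eq_right (by linarith)]

/-- the bounded case -/
theorem sol_cl (n : ℝ) (V : Sd d → ℝ) {z : ℂ} (hz : z.im ≠ 0) (f : L2 d) :
    Sol (fun x => cl n (V x)) z f (-(Rz (HV n fun x => -V x) (2 * d - z) f)) := by
  have hz' : (2 * (d : ℂ) - z).im ≠ 0 := by simpa using hz
  set w := Rz (HV n fun x => -V x) (2 * d - z) f with hw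
  have h1 := sub_Rz (HV_sa n fun x => -V x) hz' f
  rw [← hw] at h1
  intro x
  have h2 : (HV n (fun x => -V x) w) x - (2 * d - z) * w x = f x := by
    conv_rhs => rw [← h1]
    rfl
  have hcl : cl n (-V x) = -cl n (V x) := cl_neg n (V x)
  rw [HV_apply, hcl] at h2
  rw [map_neg]
  change -((Ad d w) x) + (cl n (V x) : ℂ) * (-(w x)) - z * (-(w x)) = f x
  rw [Ad_apply, ← h2]
  simp only [Finset.sum_sub_distrib, Finset.sum_add_distrib]
  push_cast
  simp
  ring

theorem exists_sol (V : Sd d → ℝ) {z : ℂ} (hz : z.im ≠ 0) (f : L2 d) : ∃ u : L2 d, Sol V z f u := by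
  obtain ⟨v, hv, -⟩ := Sol.compact (hyperfilter ℕ) (W := fun n x => cl (n : ℝ) (V x)) (V := V)
    (fun x => by
      have h1 : ∀ᶠ n : ℕ in atTop, cl (n : ℝ) (V x) = V x := by
        obtain ⟨N, hN⟩ := exists_nat_ge |V x|
        filter_upwards [eventually_ge_atTop N] with n hn
        exact cl_eq (hN.trans (by exact_mod_cast hn))
      have h2 : Tendsto (fun n : ℕ => cl (n : ℝ) (V x)) atTop (𝓝 (V x)) :=
        tendsto_const_nhds.congr' (h1.mono fun n hn => hn.symm)
      exact h2.mono_left Nat.hyperfilter_le_atTop)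
    hz (fun n => sol_cl (n : ℝ) V hz f)
  exact ⟨v, hv⟩

open Classical in
/-- the resolvent `(Δ + V - z)⁻¹` (zero for real `z`) -/
noncomputable def RV (V : Sd d → ℝ) (z : ℂ) : L2 d →L[ℂ] L2 d :=
  if hz : z.im ≠ 0 then
    LinearMap.mkContinuous
      { toFun := fun f => (exists_sol V hz f).choose
        map_add' := fun f g => Sol.unique hz (exists_sol V hz (f + g)).choose_spec
          ((exists_sol V hz f).choose_spec.add (exists_sol V hz g).choose_spec)
        map_smul' := fun c f => Sol.unique hz (exists_sol V hz (c • f)).choose_spec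
          ((exists_sol V hz f).choose_spec.smul c) }
      (1 / |z.im|) (fun f => by
        rw [div_mul_eq_mul_div, one_mul, le_div_iff₀ (abs_pos.2 hz), mul_comm]
        exact (exists_sol V hz f).choose_spec.norm_le)
  else 0

theorem RV_sol (V : Sd d → ℝ) {z : ℂ} (hz : z.im ≠ 0) (f : L2 d) : Sol V z f (RV V z f) := by
  unfold RV
  rw [dif_pos hz]
  exact (exists_sol V hz f).choose_spec

theorem RV_unique {V : Sd d → ℝ} {z : ℂ} (hz : z.im ≠ 0) {f u : L2 d} (h : Sol V z f u) :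
    u = RV V z f := h.unique hz (RV_sol V hz f)

theorem RV_norm (V : Sd d → ℝ) {z : ℂ} (hz : z.im ≠ 0) (f : L2 d) :
    ‖RV V z f‖ ≤ ‖f‖ / |z.im| := by
  rw [le_div_iff₀ (abs_pos.2 hz), mul_comm]
  exact (RV_sol V hz f).norm_le

theorem RV_adj (V : Sd d → ℝ) {z : ℂ} (hz : z.im ≠ 0) (f g : L2 d) :
    inner ℂ (RV V ((starRingEnd ℂ) z) f) g = inner ℂ f (RV V z g) :=
  (RV_sol V (by simpa using hz) f).adj (RV_sol V hz g)

theorem RV_im (V : Sd d → ℝ) {z : ℂ} (hz : z.im ≠ 0) (f : L2 d) :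
    (inner ℂ f (RV V z f)).im = z.im * ‖RV V z f‖ ^ 2 := by
  have h := (RV_sol V hz f).im
  rw [← inner_conj_symm, Complex.conj_im, h, neg_neg]

/-- `(Δ + V) u` for finitely supported `u`, as a function -/
theorem RV_res (V : Sd d → ℝ) {z w : ℂ} (hz : z.im ≠ 0) (hw : w.im ≠ 0) (f : L2 d) :
    RV V z f - RV V w f = (z - w) • RV V z (RV V w f) := by
  set u := RV V w f with hu
  have h1 : Sol V w f u := RV_sol V hw f
  have h2 : Sol V z (f + (w - z) • u) u := by
    intro x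
    have h3 := h1 x
    change _ = f x + (w - z) * u x
    rw [← h3]
    ring
  have h3 := RV_unique hz h2
  rw [map_add, map_smul] at h3
  have h4 : RV V z f - u = RV V z f - (RV V z f + (w - z) • RV V z u) := by rw [← h3]
  rw [h4, ← sub_sub, sub_self, zero_sub, ← neg_smul, neg_sub]

theorem RV_star (V : Sd d → ℝ) {z : ℂ} (hz : z.im ≠ 0) (f : L2 d) :
    star (RV V z f) = RV V ((starRingEnd ℂ) z) (star f) := by
  apply RV_unique (by simpa using hz)
  intro x
  have h1 := congrArg (starRingEnd ℂ) (RV_sol V hz f x)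
  rw [Ad_apply] at h1 ⊢
  simp only [lp.star_apply, RCLike.star_def]
  rw [map_sub, map_add, map_sum, map_mul, map_mul, Complex.conj_ofReal] at h1
  simp only [map_add] at h1
  exact h1

theorem star_ee (x : Sd d) : star (ee x : L2 d) = ee x := by
  ext y
  rw [lp.star_apply, ee_apply]
  split_ifs <;> simp

end Pool.Agent.T2h44.GU
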