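import Pool.Agent.T2h44.GU.Res
import Mathlib.MeasureTheory.Measure.Prokhorov

set_option autoImplicit false

/-! Weak continuity of the resolvent in the potential, differentiability in the spectral parameter,
and the existence of spectral measures. -/

open MeasureTheory Filter Topology Set
open scoped ENNReal NNReal InnerProductSpace
open Pool.Agent.H12R2.And (Rz isUnit_sub sub_Rz im_inner norm_Rz_le diff_inner diff_Rz)
open Pool.Agent.TH980.IM (Sd L2 ee ee_apply inner_ee inner_ee' HV HV_apply HV_sa cl cl_abs cl_eq BT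
  spm BT_spm norm_sq_eq integrable_inv)

namespace Pool.Agent.T2h44.GU

variable {d : ℕ}

/-- finite combinations of unit vectors -/
def Dn (d : ℕ) : Set (L2 d) := {φ | ∃ (s : Finset (Sd d)) (c : Sd d → ℂ), φ = ∑ x ∈ s, c x • ee x}

theorem Dn_dense (ψ : L2 d) (δ : ℝ) (hδ : 0 < δ) : ∃ φ ∈ Dn d, ‖ψ - φ‖ < δ := by
  have h := lp.hasSum_single (p := 2) (by norm_num) ψ
  have h2 := (Metric.tendsto_nhds.1 h) δ hδ
  obtain ⟨s, hs⟩ := h2.exists
  refine ⟨∑ i ∈ s, lp.single 2 i (ψ i), ⟨s, fun i => ψ i, ?_⟩, ?_⟩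
  · refine Finset.sum_congr rfl fun i _ => ?_
    unfold ee
    rw [← lp.single_smul, smul_eq_mul, mul_one]
  · rw [← dist_eq_norm, dist_comm]; exact hs

theorem RV_tendsto_apply {ι : Type} {l : Filter ι} {W : ι → Sd d → ℝ} {V : Sd d → ℝ}
    (hW : ∀ x, Tendsto (fun n => W n x) l (𝓝 (V x))) {z : ℂ} (hz : z.im ≠ 0) (f : L2 d) (x : Sd d) :
    Tendsto (fun n => (RV (W n) z f) x) l (𝓝 ((RV V z f) x)) := by
  rw [tendsto_iff_ultrafilter]
  intro g hg
  obtain ⟨v, hv, h1⟩ := Sol.compact g (fun x => (hW x).mono_left hg) hz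
    (fun n => RV_sol (W n) hz f)
  rw [RV_unique hz hv] at h1
  exact h1 x

theorem RV_tendsto_inner {ι : Type} {l : Filter ι} {W : ι → Sd d → ℝ} {V : Sd d → ℝ}
    (hW : ∀ x, Tendsto (fun n => W n x) l (𝓝 (V x))) {z : ℂ} (hz : z.im ≠ 0) (a f : L2 d) :
    Tendsto (fun n => inner ℂ a (RV (W n) z f)) l (𝓝 (inner ℂ a (RV V z f))) := by
  rw [Metric.tendsto_nhds]
  intro ε hε
  obtain ⟨C, hC⟩ : ∃ C : ℝ, C = ‖f‖ / |z.im| := ⟨_, rfl⟩
  have hC0 : 0 ≤ C := by rw [hC]; positivity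
  obtain ⟨φ, ⟨s, c, hφ⟩, hφ2⟩ := Dn_dense a (ε / (4 * (C + 1))) (by positivity)
  have h1 : Tendsto (fun n => inner ℂ φ (RV (W n) z f)) l (𝓝 (inner ℂ φ (RV V z f))) := by
    rw [hφ]
    simp only [sum_inner, inner_smul_left, inner_ee]
    exact tendsto_finsetSum s fun x _ => (RV_tendsto_apply hW hz f x).const_mul _
  have hb : ∀ U : Sd d → ℝ, ‖inner ℂ a (RV U z f) - inner ℂ φ (RV U z f)‖ ≤ ε / 4 := by
    intro U
    rw [← inner_sub_left]
    refine (norm_inner_le_norm _ _).trans ?_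
    have h2 := RV_norm U hz f
    rw [← hC] at h2
    calc ‖a - φ‖ * ‖RV U z f‖ ≤ (ε / (4 * (C + 1))) * (C + 1) :=
          mul_le_mul hφ2.le (by linarith) (norm_nonneg _) (by positivity)
      _ = ε / 4 := by field_simp
  filter_upwards [(Metric.tendsto_nhds.1 h1) (ε / 4) (by positivity)] with n hn
  rw [dist_eq_norm] at hn ⊢
  have e : inner ℂ a (RV (W n) z f) - inner ℂ a (RV V z f) =
      (inner ℂ a (RV (W n) z f) - inner ℂ φ (RV (W n) z f)) +
      (inner ℂ φ (RV (W n) z f) - inner ℂ φ (RV V z f)) -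
      (inner ℂ a (RV V z f) - inner ℂ φ (RV V z f)) := by ring
  rw [e]
  refine (norm_sub_le _ _).trans_lt ?_
  have h3 := norm_add_le (inner ℂ a (RV (W n) z f) - inner ℂ φ (RV (W n) z f))
    (inner ℂ φ (RV (W n) z f) - inner ℂ φ (RV V z f))
  have h4 := hb (W n)
  have h5 := hb V
  linarith

theorem inner_cont_V {z : ℂ} (hz : z.im ≠ 0) (a b : L2 d) :
    Continuous fun V : Sd d → ℝ => inner ℂ a (RV V z b) := by
  rw [continuous_iff_continuousAt]
  intro V
  exact RV_tendsto_inner (fun x => (continuous_apply x).tendsto V) hz a b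

theorem inner_meas_V {z : ℂ} (hz : z.im ≠ 0) (a b : L2 d) :
    Measurable fun V : Sd d → ℝ => inner ℂ a (RV V z b) := (inner_cont_V hz a b).measurable

/-- Lipschitz bound in the spectral parameter -/
theorem RV_lip (V : Sd d → ℝ) {z w : ℂ} (hz : z.im ≠ 0) (hw : w.im ≠ 0) (f : L2 d) :
    ‖RV V z f - RV V w f‖ ≤ ‖z - w‖ * ‖f‖ / (|z.im| * |w.im|) := by
  rw [RV_res V hz hw, norm_smul]
  have h1 := RV_norm V hz (RV V w f)
  have h2 := RV_norm V hw f
  have hz' : 0 < |z.im| := abs_pos.2 hz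
  have hw' : 0 < |w.im| := abs_pos.2 hw
  calc ‖z - w‖ * ‖RV V z (RV V w f)‖ ≤ ‖z - w‖ * (‖f‖ / |w.im| / |z.im|) := by
        refine mul_le_mul_of_nonneg_left (h1.trans ?_) (norm_nonneg _)
        gcongr
    _ = _ := by field_simp

theorem RV_cont (V : Sd d → ℝ) {w : ℂ} (hw : w.im ≠ 0) (f : L2 d) :
    ContinuousAt (fun z => RV V z f) w := by
  have hw' : 0 < |w.im| := abs_pos.2 hw
  have h0 : ∀ᶠ z : ℂ in 𝓝 w, |w.im| / 2 < |z.im| := by
    have h1 : Tendsto (fun z : ℂ => |z.im|) (𝓝 w) (𝓝 |w.im|) :=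
      (Complex.continuous_im.abs).tendsto w
    exact h1.eventually (lt_mem_nhds (by linarith))
  rw [ContinuousAt, tendsto_iff_norm_sub_tendsto_zero]
  have h2 : Tendsto (fun z : ℂ => ‖z - w‖ * (‖f‖ / (|w.im| / 2 * |w.im|))) (𝓝 w) (𝓝 0) := by
    have h3 : Tendsto (fun z : ℂ => ‖z - w‖) (𝓝 w) (𝓝 0) := tendsto_norm_sub_self w
    simpa using h3.mul_const (‖f‖ / (|w.im| / 2 * |w.im|))
  refine squeeze_zero' (Eventually.of_forall fun _ => norm_nonneg _) ?_ h2
  filter_upwards [h0] with z hz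
  have hz0 : z.im ≠ 0 := by
    intro h
    rw [h, abs_zero] at hz
    linarith
  refine (RV_lip V hz0 hw f).trans ?_
  rw [mul_div_assoc]
  gcongr

theorem inner_diff (V : Sd d → ℝ) {w : ℂ} (hw : w.im ≠ 0) (a b : L2 d) :
    DifferentiableAt ℂ (fun z => inner ℂ a (RV V z b)) w := by
  have h1 : ∀ᶠ z : ℂ in 𝓝 w, z.im ≠ 0 :=
    (Complex.continuous_im.tendsto w).eventually_ne hw
  have h2 : HasDerivAt (fun z => inner ℂ a (RV V z b)) (inner ℂ a (RV V w (RV V w b))) w := by
    rw [hasDerivAt_iff_tendsto_slope]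
    have h3 : Tendsto (fun z => inner ℂ a (RV V z (RV V w b))) (𝓝[≠] w)
        (𝓝 (inner ℂ a (RV V w (RV V w b)))) :=
      ((innerSL ℂ a).continuous.continuousAt.comp (RV_cont V hw (RV V w b))).tendsto.mono_left
        nhdsWithin_le_nhds
    refine h3.congr' ?_
    filter_upwards [self_mem_nhdsWithin, nhdsWithin_le_nhds h1] with z hz1 hz2
    have hne : z - w ≠ 0 := sub_ne_zero.2 hz1
    rw [slope_def_field, ← inner_sub_right, RV_res V hz2 hw, inner_smul_right]
    field_simp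
  exact h2.differentiableAt

/-! ### spectral measures -/

/-- the Borel transform of the image of a measure under `t ↦ 2 d - t` -/
theorem BT_flip (μ : Measure ℝ) (c : ℝ) {z : ℂ} (hz : z.im ≠ 0) :
    BT (μ.map fun t => c - t) z = - BT μ (c - z) := by
  unfold BT
  rw [integral_map (by fun_prop), ← integral_neg]
  · refine integral_congr_ae (Eventually.of_forall fun t => ?_)
    simp only
    rw [← inv_neg]
    congr 1
    push_cast
    ring
  · have : Continuous fun t : ℝ => ((t : ℂ) - z)⁻¹ := by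
      apply Continuous.inv₀ (by fun_prop)
      intro t h
      apply hz
      have := congrArg Complex.im h
      simpa using this
    exact this.aestronglyMeasurable

/-- spectral measures for the clipped potential -/
theorem spec_cl (n : ℝ) (V : Sd d → ℝ) (f : L2 d) : ∃ μ : Measure ℝ, IsFiniteMeasure μ ∧
    μ.real univ = ‖f‖ ^ 2 ∧
    ∀ z : ℂ, z.im ≠ 0 → BT μ z = inner ℂ f (RV (fun x => cl n (V x)) z f) := by
  have hsa := HV_sa n fun x => -V x
  refine ⟨(spm hsa f).map fun t => 2 * d - t, ?_, ?_, ?_⟩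
  · infer_instance
  · rw [norm_sq_eq hsa f, measureReal_def, measureReal_def,
      Measure.map_apply (by fun_prop) MeasurableSet.univ, preimage_univ]
  · intro z hz
    have hz' : (2 * (d : ℂ) - z).im ≠ 0 := by simpa using hz
    rw [BT_flip _ _ hz]
    push_cast
    rw [BT_spm hsa f hz', ← RV_unique hz (sol_cl n V hz f), inner_neg_right]

/-- the compactification -/
noncomputable def cmp (x : ℝ) : Icc (-1 : ℝ) 1 :=
  ⟨x / Real.sqrt (1 + x ^ 2), by
    have h1 : |x| ≤ Real.sqrt (1 + x ^ 2) := by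
      rw [← Real.sqrt_sq_eq_abs]
      exact Real.sqrt_le_sqrt (by linarith)
    have h0 : 0 < Real.sqrt (1 + x ^ 2) := Real.sqrt_pos.2 (by positivity)
    rw [mem_Icc, ← abs_le, abs_div, abs_of_pos h0, div_le_one h0]
    exact h1⟩

theorem cmp_cont : Continuous cmp := by
  unfold cmp
  apply Continuous.subtype_mk
  apply Continuous.div (by fun_prop) (by fun_prop)
  intro x
  exact (Real.sqrt_pos.2 (by positivity)).ne'

/-- the inverse of `cmp` -/
noncomputable def dcm (t : Icc (-1 : ℝ) 1) : ℝ := t / Real.sqrt (1 - (t : ℝ) ^ 2)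

theorem dcm_meas : Measurable dcm := by
  unfold dcm
  fun_prop

/-- the kernel on the compactification -/
noncomputable def ker (z : ℂ) (t : Icc (-1 : ℝ) 1) : ℂ :=
  (Real.sqrt (1 - (t : ℝ) ^ 2) : ℂ) / ((t : ℂ) - z * (Real.sqrt (1 - (t : ℝ) ^ 2) : ℂ))

theorem ker_den {z : ℂ} (hz : z.im ≠ 0) (t : Icc (-1 : ℝ) 1) :
    ((t : ℝ) : ℂ) - z * (Real.sqrt (1 - (t : ℝ) ^ 2) : ℂ) ≠ 0 := by
  intro h
  have h1 := congrArg Complex.im h
  simp only [Complex.sub_im, Complex.ofReal_im, Complex.mul_im, Complex.ofReal_re, mul_zero,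
    zero_add, zero_sub, Complex.zero_im, neg_eq_zero, mul_eq_zero] at h1
  rcases h1 with h1 | h1
  · exact hz h1
  · rw [h1] at h
    simp only [Complex.ofReal_zero, mul_zero, sub_zero, Complex.ofReal_eq_zero] at h
    rw [h] at h1
    norm_num at h1

theorem ker_cont {z : ℂ} (hz : z.im ≠ 0) : Continuous (ker z) := by
  unfold ker
  apply Continuous.div
  · fun_prop
  · fun_prop
  · exact ker_den hz

theorem ker_cmp {z : ℂ} (x : ℝ) : ker z (cmp x) = ((x : ℂ) - z)⁻¹ := by
  have h0 : 0 < Real.sqrt (1 + x ^ 2) := Real.sqrt_pos.2 (by positivity)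
  have h1 : Real.sqrt (1 - (x / Real.sqrt (1 + x ^ 2)) ^ 2) = 1 / Real.sqrt (1 + x ^ 2) := by
    rw [div_pow, Real.sq_sqrt (by positivity)]
    have h2 : 1 - x ^ 2 / (1 + x ^ 2) = 1 / (1 + x ^ 2) := by
      have : (1 + x ^ 2 : ℝ) ≠ 0 := by positivity
      field_simp
      ring
    rw [h2, Real.sqrt_div zero_le_one, Real.sqrt_one]
  unfold ker cmp
  simp only
  rw [h1]
  have h3 : ((Real.sqrt (1 + x ^ 2) : ℝ) : ℂ) ≠ 0 := by exact_mod_cast h0.ne'
  push_cast
  have h4 : (x : ℂ) / (Real.sqrt (1 + x ^ 2) : ℂ) - z * (1 / (Real.sqrt (1 + x ^ 2) : ℂ)) =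
      ((x : ℂ) - z) * (1 / (Real.sqrt (1 + x ^ 2) : ℂ)) := by ring
  rw [h4, ← one_div]
  have h5 : (1 / (Real.sqrt (1 + x ^ 2) : ℂ)) ≠ 0 := one_div_ne_zero h3
  rw [← div_div, div_right_comm, div_self h5]

theorem ker_dcm {z : ℂ} {t : Icc (-1 : ℝ) 1} (ht : Real.sqrt (1 - (t : ℝ) ^ 2) ≠ 0) :
    ker z t = ((dcm t : ℂ) - z)⁻¹ := by
  unfold ker dcm
  have h3 : ((Real.sqrt (1 - (t : ℝ) ^ 2) : ℝ) : ℂ) ≠ 0 := by exact_mod_cast ht
  rw [← inv_div]
  congr 1
  push_cast
  field_simp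

/-- limits of Borel transforms of measures of bounded mass are Borel transforms -/
theorem borel_limit {F : ℂ → ℂ} {m : ℕ → Measure ℝ} {C : ℝ} (hf : ∀ n, IsFiniteMeasure (m n))
    (hm : ∀ n, (m n).real univ ≤ C)
    (hF : ∀ z : ℂ, z.im ≠ 0 → Tendsto (fun n => BT (m n) z) atTop (𝓝 (F z))) :
    ∃ μ : Measure ℝ, IsFiniteMeasure μ ∧ μ.real univ ≤ C ∧ ∀ z : ℂ, z.im ≠ 0 → BT μ z = F z := by
  have hC0 : 0 ≤ C := measureReal_nonneg.trans (hm 0)
  obtain ⟨U, hU⟩ : ∃ U : Ultrafilter ℕ, U = hyperfilter ℕ := ⟨_, rfl⟩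
  have hUl : (U : Filter ℕ) ≤ atTop := by rw [hU]; exact Nat.hyperfilter_le_atTop
  let M : ℕ → FiniteMeasure (Icc (-1 : ℝ) 1) := fun n =>
    ⟨(m n).map cmp, by
      have := hf n
      infer_instance⟩
  have hcomp := isCompact_setOfPred_finiteMeasure_le_of_compactSpace (E := Icc (-1 : ℝ) 1)
    C.toNNReal
  have hmass : ∀ n, (M n).mass ≤ C.toNNReal := by
    intro n
    have h1 : (((M n).mass : ℝ≥0) : ℝ) = (m n).real univ := by
      have h2 : ((M n).mass : ℝ≥0∞) = (m n) univ := by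
        rw [FiniteMeasure.ennreal_mass]
        show ((m n).map cmp) univ = _
        rw [Measure.map_apply cmp_cont.measurable MeasurableSet.univ, preimage_univ]
      rw [measureReal_def, ← h2]
      rfl
    rw [← NNReal.coe_le_coe, h1, Real.coe_toNNReal _ hC0]
    exact hm n
  obtain ⟨N, hN1, hN2⟩ := hcomp.ultrafilter_le_nhds (U.map M)
    (Filter.le_principal_iff.2 (by
      rw [Ultrafilter.mem_coe, Ultrafilter.mem_map]
      exact Filter.mem_of_superset Filter.univ_mem fun n _ => hmass n))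
  have hlim : Tendsto M U (𝓝 N) := hN2
  -- the limit measure on the line
  let S : Set (Icc (-1 : ℝ) 1) := {t | Real.sqrt (1 - (t : ℝ) ^ 2) ≠ 0}
  have hSm : MeasurableSet S := by
    have h1 : Measurable fun t : Icc (-1 : ℝ) 1 => Real.sqrt (1 - (t : ℝ) ^ 2) := by fun_prop
    exact (h1 (measurableSet_singleton 0)).compl
  refine ⟨((N : Measure (Icc (-1 : ℝ) 1)).restrict S).map dcm, inferInstance, ?_, ?_⟩
  · rw [measureReal_def, Measure.map_apply dcm_meas MeasurableSet.univ, preimage_univ,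
      Measure.restrict_apply_univ]
    have h1 : (N : Measure (Icc (-1 : ℝ) 1)) S ≤ (N.mass : ℝ≥0∞) := by
      rw [FiniteMeasure.ennreal_mass]
      exact measure_mono (subset_univ _)
    have h2 : (N.mass : ℝ≥0∞) ≤ ENNReal.ofReal C := by
      have h3 : N.mass ≤ C.toNNReal := hN1
      rw [ENNReal.ofReal]
      exact ENNReal.coe_le_coe.2 h3
    exact ENNReal.toReal_le_of_le_ofReal hC0 (h1.trans h2)
  · intro z hz
    let k : BoundedContinuousFunction (Icc (-1 : ℝ) 1) ℂ :=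
      BoundedContinuousFunction.mkOfCompact ⟨ker z, ker_cont hz⟩
    have h1 : Tendsto (fun n => ∫ t, k t ∂((M n : Measure (Icc (-1 : ℝ) 1)))) U
        (𝓝 (∫ t, k t ∂(N : Measure (Icc (-1 : ℝ) 1)))) :=
      (FiniteMeasure.tendsto_iff_forall_integral_rclike_tendsto ℂ).1 hlim k
    have h2 : ∀ n, ∫ t, k t ∂((M n : Measure (Icc (-1 : ℝ) 1))) = BT (m n) z := by
      intro n
      show ∫ t, ker z t ∂((m n).map cmp) = _
      rw [integral_map cmp_cont.measurable.aemeasurable (ker_cont hz).aestronglyMeasurable]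
      unfold BT
      simp_rw [ker_cmp]
    simp_rw [h2] at h1
    have h3 := tendsto_nhds_unique h1 ((hF z hz).mono_left hUl)
    rw [← h3]
    unfold BT
    rw [integral_map dcm_meas.aemeasurable]
    · have h4 : ∫ t, k t ∂(N : Measure (Icc (-1 : ℝ) 1)) =
          ∫ t in S, k t ∂(N : Measure (Icc (-1 : ℝ) 1)) := by
        symm
        apply setIntegral_eq_integral_of_forall_compl_eq_zero
        intro t ht
        have ht' : Real.sqrt (1 - (t : ℝ) ^ 2) = 0 := by
          by_contra h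
          exact ht h
        show ker z t = 0
        unfold ker
        rw [ht']
        simp
      rw [h4]
      refine setIntegral_congr_fun hSm fun t ht => ?_
      exact (ker_dcm ht).symm
    · have : Continuous fun t : ℝ => ((t : ℂ) - z)⁻¹ := by
        apply Continuous.inv₀ (by fun_prop)
        intro t h
        apply hz
        have := congrArg Complex.im h
        simpa using this
      exact this.aestronglyMeasurable

/-- **spectral measures** -/
theorem exists_spec (V : Sd d → ℝ) (f : L2 d) : ∃ μ : Measure ℝ, IsFiniteMeasure μ ∧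
    μ.real univ ≤ ‖f‖ ^ 2 ∧ ∀ z : ℂ, z.im ≠ 0 → BT μ z = inner ℂ f (RV V z f) := by
  choose m hm1 hm2 hm3 using fun n : ℕ => spec_cl (n : ℝ) V f
  refine borel_limit hm1 (fun n => (hm2 n).le) fun z hz => ?_
  simp_rw [fun n => hm3 n z hz]
  refine RV_tendsto_inner (fun x => ?_) hz f f
  have h1 : ∀ᶠ n : ℕ in atTop, cl (n : ℝ) (V x) = V x := by
    obtain ⟨N, hN⟩ := exists_nat_ge |V x|
    filter_upwards [eventually_ge_atTop N] with n hn
    exact cl_eq (hN.trans (by exact_mod_cast hn))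
  exact tendsto_const_nhds.congr' (h1.mono fun n hn => hn.symm)

end Pool.Agent.T2h44.GU
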